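import Pool.Agent.H79.OCV.GeoT

/-!
# The real form of theorem OCV in every codimension, without (H6a)
-/

set_option autoImplicit false

namespace Pool.OCV

open Finset Real
open Pool.Agent.H49.Ent Pool.Agent.H32.Dense Pool.STK Pool.KA Pool.K2S
open Pool.K2S.Uni

/-- **Theorem OCV with real variables**, without (H6a); `x₀` and `ε` do not depend on `K`. -/
def OCVRGStmt (c : ℕ) : Prop :=
  ∀ (c₀ ca p₀ : ℝ), 0 < c₀ → 0 < ca → 0 < p₀ → ∃ (x₀ ε : ℝ), 0 < x₀ ∧ 0 < ε ∧ ∀ K : ℝ,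
    ∃ (η κ ϖ ι : ℝ) (X₀ : ℕ), 0 < η ∧ η ≤ 1 ∧ 0 < κ ∧ κ ≤ 1 ∧ 0 < ϖ ∧ 0 < ι ∧
    ∀ (Ω β Λ Θ ν : Type) [Fintype Ω] (p : Ω → ℝ) (b : Ω → β) (L : Ω → Λ) (T : Ω → Θ)
      (vis : Ω → ν) (y om : Ω → ℝ) (be m0 : Ω → Fin c → ℝ) (th : Ω → ℝ)
      (S kn nu : Ω → Fin c → ℝ) (X : ℕ), OCVData K p b L T vis y om be m0 th S kn nu → X₀ ≤ X →
      Pool.KVA.MI p T L b ≤ ι * X →
      (1 - ι) * X * Real.log 2 ≤ CH p (dg X th) L →
      CH p (dgv X nu) (fun ω => (b ω, T ω)) -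
        CH p (dgv X nu) (fun ω => ((dg X y ω, (dg X om ω, dgv X be ω)), (b ω, T ω))) ≤ ι * X →
      CH p (dg X om) (fun ω => (b ω, T ω)) -
        CH p (dg X om) (fun ω => ((dg X (ytr y om th) ω, dgv X (btr om be S) ω),
          (b ω, T ω))) ≤ ι * X →
      (∀ j : ℕ, (j + 1) * ⌊η * X⌋₊ ≤ X → ∀ E : Ω → Prop, ϖ ≤ Pe p E →
        ca * ⌊η * X⌋₊ * Real.log 2 ≤ CH (Pool.Agent.H49.Ent.cond p E True)
          (dg ((j + 1) * ⌊η * X⌋₊) om) (fun ω => (dg (j * ⌊η * X⌋₊) om ω, b ω))) →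
      (∀ j : ℕ, (j + 1) * ⌊κ * X⌋₊ ≤ X → ∀ E : Ω → Prop, ϖ ≤ Pe p E →
        CH (Pool.Agent.H49.Ent.cond p E True) (dgv ((j + 1) * ⌊κ * X⌋₊) nu)
          (fun ω => (dgv (j * ⌊κ * X⌋₊) nu ω, (vis ω, T ω))) ≤
            (c - c₀) * ⌊κ * X⌋₊ * Real.log 2) →
      H6bR p L (fun ω => (vis ω, dgv X nu ω, T ω)) S X x₀ p₀ ε →
      CH p (dgv X nu) (fun ω => (vis ω, T ω)) -
        CH p (dgv X nu) (fun ω => (b ω, (vis ω, T ω))) ≤ ι * X → False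

/-- **The real form of theorem OCV without (H6a).** -/
theorem ocvrg_of {c : ℕ} (h : OCVGStmt c) : OCVRGStmt c := by
  intro c₀ ca p₀ hc₀ hca hp₀
  obtain ⟨x₀, ε, hx, hε, h⟩ := h c₀ (ca / 2) p₀ hc₀ (by positivity) hp₀
  refine ⟨x₀ / 2, ε, by positivity, hε, fun K => ?_⟩
  obtain ⟨B, hB⟩ : ∃ B : ℕ, K ≤ 2 ^ B := by
    obtain ⟨n, hn⟩ := exists_nat_ge K
    refine ⟨n, hn.trans ?_⟩
    exact_mod_cast Nat.lt_two_pow_self.le
  obtain ⟨η, κ, ϖ, ι, X₀, hη, hη1, hκ, hκ1, hϖ, hι, H⟩ := h B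
  obtain ⟨X₁, hX₁⟩ := exists_nat_ge ((4 * B + 4 + 6 * c) * Real.log 2 / ι + 2 * B / x₀ +
    (2 * B / ca + 1) / η)
  have hl : 0 < Real.log 2 := Real.log_pos (by norm_num)
  refine ⟨η, κ, ϖ, ι / 2, max X₀ X₁, hη, hη1, hκ, hκ1, hϖ, by positivity, ?_⟩
  intro Ω β Λ Θ ν _ p b L T vis y om be m0 th S kn nu X hd hX h1 h1' h2 h3 h4 h5 h6b h7
  obtain ⟨f, hk⟩ := mk_exists hd hB X
  have hX0 : X₀ ≤ X := le_trans (le_max_left _ _) hX
  have hX1 : (X₁ : ℝ) ≤ X := by exact_mod_cast le_trans (le_max_right _ _) hX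
  have a1 : 0 ≤ (4 * B + 4 + 6 * c) * Real.log 2 / ι := by positivity
  have a2 : 0 ≤ 2 * B / x₀ := by positivity
  have a3 : 0 ≤ (2 * B / ca + 1) / η := by positivity
  have b1 : (4 * B + 4 + 6 * c) * Real.log 2 ≤ ι * X := by
    have : (4 * B + 4 + 6 * c) * Real.log 2 / ι ≤ X := by linarith
    rw [div_le_iff₀ hι] at this
    linarith
  have b2 : 2 * B ≤ x₀ * X := by
    have : 2 * B / x₀ ≤ X := by linarith
    rw [div_le_iff₀ hx] at this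
    linarith
  have b3 : 2 * B ≤ ca * ⌊η * X⌋₊ := by
    have : (2 * B / ca + 1) / η ≤ X := by linarith
    rw [div_le_iff₀ hη] at this
    have k1 := Nat.lt_floor_add_one (η * X)
    have k2 : 2 * B / ca ≤ ⌊η * X⌋₊ := by linarith
    rw [div_le_iff₀ hca] at k2
    linarith
  have b4 : 4 * B * Real.log 2 ≤ ι * X := by
    have k1 : 4 * B * Real.log 2 ≤ (4 * B + 4 + 6 * c) * Real.log 2 := by
      refine mul_le_mul_of_nonneg_right ?_ hl.le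
      have : (0 : ℝ) ≤ c := Nat.cast_nonneg c
      linarith
    linarith
  have hX' : (0 : ℝ) ≤ X := Nat.cast_nonneg X
  have c1 : ι / 2 * X ≤ ι * X := by nlinarith [mul_nonneg hι.le hX']
  refine H (mkV B p L T vis f nu X) hk.ok hX0 (hk.H1 (h1.trans c1) (le_trans ?_ h1'))
    (hk.H2 b4 h2) (hk.H3 hd.hth (fun ω hω i => (hd.hS ω hω i).trans hB) b1 h3)
    (hk.H4 hϖ b3 h4) (mk_H5 h5) (hk.H6b b2 h6b) (hk.H7 (h7.trans c1))
  refine mul_le_mul_of_nonneg_right ?_ hl.le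
  nlinarith [mul_nonneg hι.le hX']

/-- **The real form of theorem OCV** in every positive codimension, without (H6a). -/
theorem ocvrg_thm {c : ℕ} (hc : 0 < c) : OCVRGStmt c := ocvrg_of (ocvg_thm hc)

end Pool.OCV
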