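import Pool.Agent.H79.OCV.GeoG
import Pool.Agent.H98.OCV.Thm

/-!
# Theorem OCV in every codimension

`geog_thm`: the references, `ocvg_thm`: theorem OCV without (H6a) in every positive codimension,
`ocv_all : OCVStmt c`, `ocvr_all : OCVRStmt c`.
-/

set_option autoImplicit false

namespace Pool.OCV

open Finset Real
open Pool.Agent.H49.Ent Pool.Agent.H32.Dense Pool.STK Pool.KAF
open Pool.OCM
open Pool.OCV.MD Pool.OCV.SC

/-- **GEO** in codimension `c`, without (H6a). `kz = 0`. -/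
def GEOGStmt (c : ℕ) : Prop :=
  ∀ p₀ uu dd : ℝ, 0 < p₀ → 0 < uu → 0 < dd → ∃ ν x₀ q₀ ε ι C : ℝ, ∃ X₀ : ℕ, 0 < ν ∧ ν ≤ uu ∧
    0 < x₀ ∧ 0 < q₀ ∧ 0 < ε ∧ 0 < ι ∧ 1 ≤ C ∧ ∀ (A : ℕ) (d : Dat c) (ι' : ℝ), d.OK A →
      X₀ ≤ d.X → ι' ≤ ι → d.H1 ι' → d.H7 ι' → d.H6b x₀ p₀ ε →
      ∃ (R : Type) (_ : Fintype R) (Q : R → ℝ) (w₀ : R → d.Om) (w ρ : Fin c → R → d.Om)
        (kmax : ℕ), Sch d Q w₀ w ρ (C * ι') ∧ (kmax : ℝ) ≤ uu * d.X ∧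
        q₀ ≤ Pr Q (Good d w₀ w ρ ⌊ν * d.X⌋₊ 0 kmax dd)

theorem fact_le (c : ℕ) : (c.factorial : ℝ) ≤ 2 ^ (c * c) := by
  have h1 : c.factorial ≤ c ^ c := Nat.factorial_le_pow c
  have h2 : c ^ c ≤ (2 ^ c) ^ c := Nat.pow_le_pow_left Nat.lt_two_pow_self.le c
  rw [← pow_mul] at h2
  exact_mod_cast h1.trans h2

/-- The size of the matrix of coordinates. -/
theorem size_ok (c n : ℕ) {x : ℝ} (hx : 0 ≤ x) {kmax : ℕ}
    (hk : kmax = 2 * (c * c) + c * (3 * n + 1) + ⌈(c : ℝ) * x⌉₊) :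
    (c.factorial : ℝ) * (c.factorial * ((2 : ℝ) ^ (3 * n + 1)) ^ c) ≤
      2 ^ kmax * ((2 : ℝ) ^ (-x)) ^ c := by
  have h1 := fact_le c
  have h2 : ((2 : ℝ) ^ (3 * n + 1)) ^ c = 2 ^ (c * (3 * n + 1)) := by rw [← pow_mul, mul_comm]
  have h3 : (1 : ℝ) ≤ 2 ^ ⌈(c : ℝ) * x⌉₊ * ((2 : ℝ) ^ (-x)) ^ c := by
    rw [← Real.rpow_natCast, ← Real.rpow_natCast, ← Real.rpow_mul (by norm_num),
      ← Real.rpow_add (by norm_num)]
    refine Real.one_le_rpow (by norm_num) ?_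
    have := Nat.le_ceil ((c : ℝ) * x)
    linarith
  have h4 : (c.factorial : ℝ) * c.factorial ≤ 2 ^ (2 * (c * c)) := by
    rw [two_mul, pow_add]
    exact mul_le_mul h1 h1 (Nat.cast_nonneg _) (by positivity)
  have h0 : (0 : ℝ) ≤ 2 ^ (c * (3 * n + 1)) := by positivity
  rw [h2, hk, pow_add, pow_add]
  calc (c.factorial : ℝ) * (c.factorial * 2 ^ (c * (3 * n + 1))) =
        (c.factorial * c.factorial) * 2 ^ (c * (3 * n + 1)) := by ring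
    _ ≤ 2 ^ (2 * (c * c)) * 2 ^ (c * (3 * n + 1)) := mul_le_mul_of_nonneg_right h4 h0
    _ = (2 ^ (2 * (c * c)) * 2 ^ (c * (3 * n + 1))) * 1 := by ring
    _ ≤ (2 ^ (2 * (c * c)) * 2 ^ (c * (3 * n + 1))) *
        (2 ^ ⌈(c : ℝ) * x⌉₊ * ((2 : ℝ) ^ (-x)) ^ c) :=
        mul_le_mul_of_nonneg_left h3 (by positivity)
    _ = _ := by ring

/-- The typical base points. -/
theorem base_pr {c : ℕ} (d : Dat c) {A : ℕ} (hok : d.OK A) {n : ℕ} (hn : 1 ≤ n)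
    {x₀ p₀ p β : ℝ} (hp : 0 < p) (hpp : p ≤ p₀)
    (hβ : ∑ ω, d.P ω * Pr (kM d n ω) (nr d n ω) ≤ β) (hβp : β ≤ p / 16)
    (h6 : d.H6b x₀ p₀ (1 / 4)) :
    1 / 2 ≤ Pr d.P {ω | (∀ m : Fin c → ℝ, (∀ i, |m i| ≤ 1) → (∃ i, |m i| = 1) →
      p ≤ ∑ w, d.pp ω w * Pr (d.pl w)
        {ρ | (2 : ℝ) ^ (-(x₀ * d.X)) ≤ |∑ i, m i * (d.S (d.T ρ) i - d.S (d.T ω) i)|}) ∧
        ∑ w, d.pp ω w * Pr (kM d n w) (nr d n w) ≤ p / 4} := by
  classical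
  have hP := hok.law
  have hκ := kM_kr d hP hn
  have h1 : Pr d.P {ω | p / 4 < ∑ w, d.pp ω w * Pr (kM d n w) (nr d n w)} ≤ 1 / 4 := by
    refine Pool.KX.AVG.markov hP.nonneg
      (fun ω => ∑ w, d.pp ω w * Pr (kM d n w) (nr d n w))
      (fun ω _ => Finset.sum_nonneg fun w _ => mul_nonneg (pp_nonneg d hP ω w)
        (Pool.KAF.Pr_nonneg (hκ.nn _) _)) (p / 4) (1 / 4) (by positivity) ?_
    have e1 : ∑ ω, d.P ω * ∑ w, d.pp ω w * Pr (kM d n w) (nr d n w) =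
        ∑ ω, d.P ω * Pr (kM d n ω) (nr d n ω) := by
      simp only [Finset.mul_sum]
      rw [Finset.sum_comm]
      refine Finset.sum_congr rfl fun w _ => ?_
      have e2 : ∑ ω, d.P ω * d.pp ω w = d.P w := cond_stat hP.nonneg d.pt w
      rw [← e2, Finset.sum_mul]
      exact Finset.sum_congr rfl fun ω _ => by ring
    beta_reduce
    rw [e1]
    linarith
  have h2 : Pr d.P {ω | ∃ n : Fin c → ℝ, (∀ i, |n i| ≤ 1) ∧ (∃ i, |n i| = 1) ∧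
    ∑ ω', d.pp ω ω' * Pr (d.pl ω')
      {ρ | (2 : ℝ) ^ (-(x₀ * d.X)) ≤ |∑ i, n i * (d.S (d.T ρ) i - d.S (d.T ω) i)|} < p₀} ≤
      1 / 4 := h6
  have h3 : (1 : ℝ) ≤ Pr d.P (Set.univ : Set d.Om) := by
    rw [Pool.KAF.Pr_eq]
    simp [hP.sum_one]
  have h4 := Geos.Pr_sub3 hP.nonneg Set.univ _ _
    {ω | (∀ m : Fin c → ℝ, (∀ i, |m i| ≤ 1) → (∃ i, |m i| = 1) →
      p ≤ ∑ w, d.pp ω w * Pr (d.pl w)
        {ρ | (2 : ℝ) ^ (-(x₀ * d.X)) ≤ |∑ i, m i * (d.S (d.T ρ) i - d.S (d.T ω) i)|}) ∧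
        ∑ w, d.pp ω w * Pr (kM d n w) (nr d n w) ≤ p / 4} h3 h2 h1 ?_
  · linarith
  · intro ω _ k1 k2
    refine ⟨fun m hm1 hm2 => ?_, not_lt.1 k2⟩
    by_contra hcon
    exact k1 ⟨m, hm1, hm2, lt_of_lt_of_le (not_le.1 hcon) hpp⟩

/-- **GEO** in every positive codimension. -/
theorem geog_thm {c : ℕ} (hc : 0 < c) : GEOGStmt c := by
  classical
  intro p₀ uu dd hp₀ huu hdd
  obtain ⟨p, hpd⟩ : ∃ p : ℝ, p = min p₀ 1 := ⟨_, rfl⟩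
  have hp : 0 < p := by rw [hpd]; exact lt_min hp₀ one_pos
  have hpp : p ≤ p₀ := by rw [hpd]; exact min_le_left _ _
  obtain ⟨Q1, hQ1⟩ : ∃ Q1 : ℝ, Q1 = 1 / 2 * (p / 4) ^ c := ⟨_, rfl⟩
  have hQ0 : 0 < Q1 := by rw [hQ1]; positivity
  have hc' : (0 : ℝ) < c := by exact_mod_cast hc
  have hc1 : (1 : ℝ) ≤ c := by exact_mod_cast hc
  obtain ⟨N, hN⟩ := exists_nat_ge (8 * (c : ℝ) ^ 2 / (dd * Q1) + 1)
  have hN1 : (1 : ℝ) ≤ N := by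
    have : 0 ≤ 8 * (c : ℝ) ^ 2 / (dd * Q1) := by positivity
    linarith
  have hN0 : 0 < N := by exact_mod_cast lt_of_lt_of_le one_pos hN1
  have hN' : (0 : ℝ) < N := by linarith
  have hNb : (c : ℝ) * (c / ((N : ℝ) + 1) / (dd / 2)) ≤ Q1 / 4 := by
    have h1 : 8 * (c : ℝ) ^ 2 / (dd * Q1) ≤ N + 1 := by linarith
    rw [div_le_iff₀ (by positivity)] at h1
    have e1 : (c : ℝ) * (c / ((N : ℝ) + 1) / (dd / 2)) = 2 * (c : ℝ) ^ 2 / ((N + 1) * dd) := by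
      field_simp
    rw [e1, div_le_iff₀ (by positivity)]
    linarith
  obtain ⟨b, hb⟩ : ∃ b : ℝ, b = min (p / 16) (Q1 / (4 * c * N)) := ⟨_, rfl⟩
  have hb0 : 0 < b := by rw [hb]; exact lt_min (by positivity) (by positivity)
  have hb1 : b ≤ p / 16 := by rw [hb]; exact min_le_left _ _
  have hb2 : c * N * b ≤ Q1 / 4 := by
    have h1 : b ≤ Q1 / (4 * c * N) := by rw [hb]; exact min_le_right _ _
    rw [le_div_iff₀ (by positivity)] at h1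
    linarith
  obtain ⟨R, hR⟩ := Pool.Coup.tim_thm c (b / 2) (by positivity)
  obtain ⟨ν, hν⟩ : ∃ ν : ℝ, ν = min (1 / 4) (uu / (8 * c)) := ⟨_, rfl⟩
  have hν0 : 0 < ν := by rw [hν]; exact lt_min (by norm_num) (by positivity)
  have hν4 : ν ≤ 1 / 4 := by rw [hν]; exact min_le_left _ _
  have hνc : 8 * c * ν ≤ uu := by
    have h1 : ν ≤ uu / (8 * c) := by rw [hν]; exact min_le_right _ _
    rw [le_div_iff₀ (by positivity)] at h1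
    linarith
  have hνu : ν ≤ uu := by nlinarith
  obtain ⟨ιT, XT, hιT, hT⟩ := hR ν (b / 4) hν0 hν4 (by positivity)
  obtain ⟨X₁, hX₁⟩ := exists_nat_ge (((R : ℝ) + 1) / ν + 2 * (2 * (c * c) + c + 1) / uu)
  have hne : Nonempty (Fin c → Fin c × Fin N) := ⟨fun _ => (⟨0, hc⟩, ⟨0, hN0⟩)⟩
  have hcard : (0 : ℝ) < Fintype.card (Fin c → Fin c × Fin N) := by
    exact_mod_cast Fintype.card_pos
  refine ⟨ν, ν, Q1 / 2 / Fintype.card (Fin c → Fin c × Fin N), 1 / 4, ιT, c * (N + 1) + 1,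
    max XT X₁, hν0, hνu, hν0, by positivity, by norm_num, hιT, ?_, ?_⟩
  · have : 0 ≤ (c : ℝ) * (N + 1) := by positivity
    linarith
  intro A d ι' hok hX hι H1 H7 H6b
  have hP := hok.law
  have hX1 : (X₁ : ℝ) ≤ d.X := by exact_mod_cast (le_max_right _ _).trans hX
  have a1 : 0 ≤ ((R : ℝ) + 1) / ν := by positivity
  have a2 : 0 ≤ 2 * (2 * ((c : ℝ) * c) + c + 1) / uu := by positivity
  have b1 : (R : ℝ) + 1 ≤ ν * d.X := by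
    have : ((R : ℝ) + 1) / ν ≤ d.X := by linarith
    rw [div_le_iff₀ hν0] at this
    linarith
  have b2 : 2 * (2 * ((c : ℝ) * c) + c + 1) ≤ uu * d.X := by
    have : 2 * (2 * ((c : ℝ) * c) + c + 1) / uu ≤ d.X := by linarith
    rw [div_le_iff₀ huu] at this
    linarith
  have hX0 : (0 : ℝ) ≤ d.X := Nat.cast_nonneg _
  have hR0 : (0 : ℝ) ≤ R := Nat.cast_nonneg _
  have hXp : (0 : ℝ) < d.X := by
    by_contra hcon
    have : (d.X : ℝ) = 0 := le_antisymm (not_lt.1 hcon) hX0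
    rw [this, mul_zero] at b1
    linarith
  have hι0 : 0 ≤ ι' := by
    have h1 := Pool.KVA.IDX.MI_nonneg hP d.T d.L d.B
    have h2 : 0 ≤ ι' * d.X := h1.trans H1.1
    by_contra hcon
    nlinarith
  have H1' : d.H1 ιT := by
    refine ⟨H1.1.trans (mul_le_mul_of_nonneg_right hι hX0), le_trans ?_ H1.2⟩
    refine mul_le_mul_of_nonneg_right ?_ (Real.log_nonneg (by norm_num))
    nlinarith
  obtain ⟨-, hT2, hT3⟩ := hT d A hok ((le_max_left _ _).trans hX) H1'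
  obtain ⟨n, hn⟩ : ∃ n : ℕ, n = ⌊ν * d.X⌋₊ := ⟨_, rfl⟩
  have hn1 : (n : ℝ) ≤ ν * d.X := by rw [hn]; exact Nat.floor_le (by positivity)
  have hn2 : ν * d.X < n + 1 := by rw [hn]; exact Nat.lt_floor_add_one _
  have hRn : R ≤ n := by rw [hn]; exact Nat.le_floor (by linarith)
  have hn3 : 1 ≤ n := by rw [hn]; exact Nat.le_floor (by push_cast; linarith)
  have hn3' : (1 : ℝ) ≤ n := by exact_mod_cast hn3
  have hνn : ν * d.X ≤ 3 * n := by linarith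
  have hβ := near_mean d (by positivity : 0 ≤ b / 2) hn hRn hn3 hνn hP hT2 hT3
  have hβ' : ∑ ω, d.P ω * Pr (kM d n ω) (nr d n ω) ≤ b := by linarith
  have hbase := base_pr d hok hn3 hp hpp hβ' hb1 H6b
  obtain ⟨kmax, hk⟩ : ∃ kmax : ℕ,
    kmax = 2 * (c * c) + c * (3 * n + 1) + ⌈(c : ℝ) * (ν * d.X)⌉₊ := ⟨_, rfl⟩
  have hk1 : (2 : ℝ) ^ (3 * n + 1) ≤ 2 ^ kmax := by
    refine pow_le_pow_right₀ (by norm_num) ?_
    have : 1 * (3 * n + 1) ≤ c * (3 * n + 1) := Nat.mul_le_mul_right _ hc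
    omega
  have hk2 := size_ok c n (show 0 ≤ ν * (d.X : ℝ) by positivity) hk
  have hkX : (kmax : ℝ) ≤ uu * d.X := by
    have h1 : ((⌈(c : ℝ) * (ν * d.X)⌉₊ : ℕ) : ℝ) < c * (ν * d.X) + 1 :=
      Nat.ceil_lt_add_one (by positivity)
    rw [hk]
    push_cast
    have h2 : (c : ℝ) * n ≤ c * (ν * d.X) := mul_le_mul_of_nonneg_left hn1 hc'.le
    have h3 : 8 * c * ν * d.X ≤ uu * d.X := mul_le_mul_of_nonneg_right hνc hX0
    have e1 : 8 * c * ν * (d.X : ℝ) = 8 * (c * (ν * d.X)) := by ring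
    rw [e1] at h3
    have e2 : (c : ℝ) * (3 * n + 1) = 3 * (c * n) + c := by ring
    rw [e2]
    linarith
  have hθ : (0 : ℝ) < (2 : ℝ) ^ (-(ν * (d.X : ℝ))) := Real.rpow_pos_of_pos (by norm_num) _
  have hgood := good_pr d hok (n := n) (N := N) (kmax := kmax) hn3 hN0 (dd := dd)
    (θ := (2 : ℝ) ^ (-(ν * (d.X : ℝ)))) (p := p) (β := b) (x := 1 / 2) hdd hθ hp hk1 hk2 hβ' hbase
  have hκ := kM_kr d hP hn3
  have hkok := kokG d hok hκ (m := c) (N := N)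
  have hQ0' : ∀ z, 0 ≤ QG d (kM d n) c N z := QQ_nonneg hkok
  have hg2 : Q1 / 2 ≤ Pr (QG d (kM d n) c N) {z | ∃ f : Fin c → Fin c × Fin N,
        z ∈ Good d Prod.fst (fun k v => (v.2 (f k).1).1)
          (fun k v => (v.2 (f k).1).2 (f k).2) n 0 kmax dd} := by
    refine le_trans ?_ hgood
    rw [← hQ1]
    linarith
  obtain ⟨f, hf⟩ := Pr_pig hQ0' (fun f : Fin c → Fin c × Fin N =>
    Good d Prod.fst (fun k v => (v.2 (f k).1).1)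
      (fun k v => (v.2 (f k).1).2 (f k).2) n 0 kmax dd) hg2 (fun z hz _ => hz)
  refine ⟨d.Om × (Fin c → d.Om × (Fin N → d.Om)), inferInstance, QG d (kM d n) c N, Prod.fst,
    fun k v => (v.2 (f k).1).1, fun k v => (v.2 (f k).1).2 (f k).2, kmax,
    schG d hok hκ f hι0 H1.1 H7, hkX, ?_⟩
  rw [← hn]
  exact hf

/-- **Theorem OCV without (H6a)**: the exponents `x₀` and `ε` do not depend on `A`. -/
def OCVGStmt (c : ℕ) : Prop :=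
  ∀ c₀ ca p₀ : ℝ, 0 < c₀ → 0 < ca → 0 < p₀ → ∃ x₀ ε : ℝ, 0 < x₀ ∧ 0 < ε ∧ ∀ A : ℕ,
    ∃ (η κ π₀ ι : ℝ) (X₀ : ℕ), 0 < η ∧ η ≤ 1 ∧ 0 < κ ∧ κ ≤ 1 ∧ 0 < π₀ ∧ 0 < ι ∧
      ∀ d : Dat c, d.OK A → X₀ ≤ d.X → d.H1 ι → d.H2 ι → d.H3 ι → d.H4 ca η π₀ →
        d.H5 c₀ κ π₀ → d.H6b x₀ p₀ ε → d.H7 ι → False

/-- The theorem from the two halves. -/
theorem ocvg_of {c : ℕ} (hC : COREStmt c) (hG : GEOGStmt c) : OCVGStmt c := by
  intro c₀ ca p₀ h0 ha hp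
  obtain ⟨uu, dd, hu, -, hdd, hC⟩ := hC c₀ ca h0 ha
  obtain ⟨ν, x₀, q₀, ε, ι₁, C, X₁, hν, hνu, hx, hq, hε, hι₁, hC1, hG⟩ := hG p₀ uu dd hp hu hdd
  refine ⟨x₀, ε, hx, hε, fun A => ?_⟩
  obtain ⟨η, κ, π₀, ι₂, X₂, hη, hη1, hκ, hκ1, hπ, hι₂, hC⟩ := hC A 0 ν q₀ hν hνu hq
  have hC0 : 0 < C := lt_of_lt_of_le one_pos hC1
  refine ⟨η, κ, π₀, min ι₁ (ι₂ / C), max X₁ X₂, hη, hη1, hκ, hκ1, hπ,
    lt_min hι₁ (by positivity), ?_⟩
  intro d hok hX H1 H2 H3 H4 H5 H6b H7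
  obtain ⟨R, hR, Q, w₀, w, ρ, kmax, hS, hk, hgood⟩ := hG A d (min ι₁ (ι₂ / C)) hok
    (le_trans (le_max_left _ _) hX) (min_le_left _ _) H1 H7 H6b
  have hXn : (0 : ℝ) ≤ d.X := Nat.cast_nonneg _
  have hι : min ι₁ (ι₂ / C) ≤ ι₂ :=
    le_trans (min_le_right _ _) (div_le_self hι₂.le hC1)
  have hm : min ι₁ (ι₂ / C) * d.X ≤ ι₂ * d.X := mul_le_mul_of_nonneg_right hι hXn
  have hm20 : C * min ι₁ (ι₂ / C) ≤ ι₂ := by
    have := mul_le_mul_of_nonneg_left (min_le_right ι₁ (ι₂ / C)) hC0.le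
    rw [mul_div_cancel₀ _ hC0.ne'] at this
    exact this
  have hm20' : C * min ι₁ (ι₂ / C) * d.X ≤ ι₂ * d.X := mul_le_mul_of_nonneg_right hm20 hXn
  have hl : 0 ≤ Real.log 2 := Real.log_nonneg (by norm_num)
  refine absurd (hC d hok (le_trans (le_max_right _ _) hX) ⟨le_trans H1.1 hm, ?_⟩
    (le_trans H2 hm) (le_trans H3 hm) H4 H5 R Q w₀ w ρ kmax ?_ hk) (not_lt.mpr hgood)
  · refine le_trans (mul_le_mul_of_nonneg_right ?_ hl) H1.2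
    nlinarith
  · exact { hS with
      mi := fun k => le_trans (hS.mi k) hm20'
      mn := fun k => le_trans (hS.mn k) hm20' }

/-- **Theorem OCV** in every positive codimension, without (H6a). -/
theorem ocvg_thm {c : ℕ} (hc : 0 < c) : OCVGStmt c := ocvg_of (core_thm c hc) (geog_thm hc)

/-- **Theorem OCV** in every positive codimension. -/
theorem ocv_all {c : ℕ} (hc : 0 < c) : OCVStmt c := by
  intro A c₀ ca p₀ h0 ha hp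
  obtain ⟨x₀, ε, hx, hε, h⟩ := ocvg_thm hc c₀ ca p₀ h0 ha hp
  obtain ⟨η, κ, π₀, ι, X₀, h1, h2, h3, h4, h5, h6, h⟩ := h A
  exact ⟨x₀, η, κ, π₀, ι, ε, X₀, hx, h1, h2, h3, h4, h5, h6, hε,
    fun d hok hX H1 H2 H3 H4 H5 _ H6b H7 => h d hok hX H1 H2 H3 H4 H5 H6b H7⟩

/-- The real form in every positive codimension. -/
theorem ocvr_all {c : ℕ} (hc : 0 < c) : OCVRStmt c := ocvr_thm (ocv_all hc)

end Pool.OCV
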