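import Pool.Agent.H98.OCM.Defs

/-!
# Maximal determinants of samples

`dm χ A` is the maximum of `|det|` over the `c`-tuples of samples in `A`. One more independent
sample increases the maximum with probability at most `c / (N + 1)`.
-/

set_option autoImplicit false

namespace Pool.OCV.MD

open Finset Real
open scoped NNReal

section det

variable {S : Type} [Fintype S] {c : ℕ} (χ : S → Fin c → ℝ)

/-- The matrix of a tuple. -/
def mt (τ : Fin c → S) : Matrix (Fin c) (Fin c) ℝ := Matrix.of fun i => χ (τ i)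

open Classical in
/-- The maximum of the determinants. -/
noncomputable def dm (A : Finset S) : ℝ≥0 :=
  (univ : Finset (Fin c → S)).sup fun τ => if ∀ k, τ k ∈ A then ‖(mt χ τ).det‖₊ else 0

theorem le_dm {A : Finset S} {τ : Fin c → S} (h : ∀ k, τ k ∈ A) :
    |(mt χ τ).det| ≤ dm χ A := by
  classical
  have h1 : (fun τ : Fin c → S => if ∀ k, τ k ∈ A then ‖(mt χ τ).det‖₊ else 0) τ ≤ dm χ A :=
    Finset.le_sup (f := fun τ : Fin c → S => if ∀ k, τ k ∈ A then ‖(mt χ τ).det‖₊ else 0)
      (Finset.mem_univ τ)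
  beta_reduce at h1
  rw [if_pos h] at h1
  exact_mod_cast h1

theorem dm_mono {A B : Finset S} (h : A ⊆ B) : dm χ A ≤ dm χ B := by
  classical
  refine Finset.sup_mono_fun fun τ _ => ?_
  by_cases h1 : ∀ k, τ k ∈ A
  · rw [if_pos h1, if_pos fun k => h (h1 k)]
  · rw [if_neg h1]
    exact bot_le

theorem dm_att {A : Finset S} (h : 0 < dm χ A) :
    ∃ τ : Fin c → S, (∀ k, τ k ∈ A) ∧ |(mt χ τ).det| = dm χ A := by
  classical
  have hne : (univ : Finset (Fin c → S)).Nonempty := by
    by_contra hcon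
    rw [Finset.not_nonempty_iff_eq_empty] at hcon
    have h0 : dm χ A = 0 := by
      unfold dm
      rw [hcon, Finset.sup_empty]
      rfl
    rw [h0] at h
    exact lt_irrefl _ h
  obtain ⟨τ, -, hτ⟩ := Finset.exists_mem_eq_sup (univ : Finset (Fin c → S)) hne
    fun τ => if ∀ k, τ k ∈ A then ‖(mt χ τ).det‖₊ else 0
  have hτ' : dm χ A = if ∀ k, τ k ∈ A then ‖(mt χ τ).det‖₊ else 0 := hτ
  by_cases h1 : ∀ k, τ k ∈ A
  · rw [if_pos h1] at hτ'
    refine ⟨τ, h1, ?_⟩
    rw [hτ']
    rfl
  · rw [if_neg h1] at hτ'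
    rw [hτ'] at h
    exact absurd h (lt_irrefl _)

open Classical in
/-- At most `c` samples are essential. -/
theorem ess_le {n : ℕ} (O : Finset S) (v : Fin n → S) :
    (univ.filter fun i : Fin n => dm χ (O ∪ (univ.erase i).image v) <
      dm χ (O ∪ univ.image v)).card ≤ c := by
  have hz : 0 ≤ dm χ (O ∪ univ.image v) := bot_le
  rcases hz.eq_or_lt with h0 | h0
  · rw [Finset.filter_false_of_mem]
    · simp
    · intro i _ hi
      rw [← h0] at hi
      exact not_lt_bot (a := dm χ (O ∪ (univ.erase i).image v)) hi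
  obtain ⟨τ, hτ, hd⟩ := dm_att χ h0
  have hj : ∀ k, ∃ j : Option (Fin n), (τ k ∈ O) ∨ ∃ i, j = some i ∧ v i = τ k := by
    intro k
    rcases Finset.mem_union.1 (hτ k) with h | h
    · exact ⟨none, Or.inl h⟩
    · obtain ⟨i, -, hi⟩ := Finset.mem_image.1 h
      exact ⟨some i, Or.inr ⟨i, rfl, hi⟩⟩
  choose j hj using hj
  have hsub : (univ.filter fun i : Fin n => dm χ (O ∪ (univ.erase i).image v) <
      dm χ (O ∪ univ.image v)).image some ⊆ (univ : Finset (Fin c)).image j := by
    intro o ho
    obtain ⟨i, hi, rfl⟩ := Finset.mem_image.1 ho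
    rw [Finset.mem_filter] at hi
    by_contra hcon
    refine absurd hi.2 (not_lt.2 ?_)
    have h1 : ∀ k, τ k ∈ O ∪ (univ.erase i).image v := by
      intro k
      rcases hj k with h | ⟨i', h1, h2⟩
      · exact Finset.mem_union_left _ h
      · refine Finset.mem_union_right _ (Finset.mem_image.2 ⟨i', ?_, h2⟩)
        rw [Finset.mem_erase]
        refine ⟨fun e => hcon ?_, Finset.mem_univ _⟩
        rw [Finset.mem_image]
        exact ⟨k, Finset.mem_univ _, by rw [h1, e]⟩
    have h2 := le_dm χ h1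
    rw [hd] at h2
    exact_mod_cast h2
  have h1 := Finset.card_le_card hsub
  rw [Finset.card_image_of_injective _ (Option.some_injective _)] at h1
  refine h1.trans (Finset.card_image_le.trans ?_)
  rw [Finset.card_univ, Fintype.card_fin]

end det

section exch

variable {S : Type} [Fintype S] {c : ℕ} (χ : S → Fin c → ℝ)

open Classical in
/-- One sample is essential with probability at most `c / n`. -/
theorem ess_pr {n : ℕ} (O : Finset S) (μ : S → ℝ) (hμ : ∀ s, 0 ≤ μ s) (h1 : ∑ s, μ s = 1)
    (i₀ : Fin n) :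
    n * ∑ w : Fin n → S, (∏ i, μ (w i)) * (if dm χ (O ∪ (univ.erase i₀).image w) <
      dm χ (O ∪ univ.image w) then (1 : ℝ) else 0) ≤ c := by
  have hsym : ∀ i : Fin n, (∑ w : Fin n → S, (∏ i, μ (w i)) *
      (if dm χ (O ∪ (univ.erase i).image w) < dm χ (O ∪ univ.image w) then (1 : ℝ) else 0)) =
      ∑ w : Fin n → S, (∏ i, μ (w i)) *
      (if dm χ (O ∪ (univ.erase i₀).image w) < dm χ (O ∪ univ.image w) then (1 : ℝ) else 0) := by
    intro i
    rw [← (Equiv.arrowCongr (Equiv.swap i i₀) (Equiv.refl S)).sum_comp]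
    refine Finset.sum_congr rfl fun w _ => ?_
    have e0 : (Equiv.arrowCongr (Equiv.swap i i₀) (Equiv.refl S)) w = w ∘ (Equiv.swap i i₀) := by
      funext k
      simp [Equiv.arrowCongr]
    rw [e0]
    have e1 : ∏ k, μ ((w ∘ (Equiv.swap i i₀)) k) = ∏ k, μ (w k) :=
      Equiv.prod_comp (Equiv.swap i i₀) fun k => μ (w k)
    have e2 : (univ : Finset (Fin n)).image (w ∘ (Equiv.swap i i₀)) = univ.image w := by
      rw [← Finset.image_image]
      congr 1
      ext k
      simp only [Finset.mem_image, Finset.mem_univ, true_and, iff_true]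
      exact ⟨Equiv.swap i i₀ k, by simp⟩
    have e3 : ((univ : Finset (Fin n)).erase i).image (w ∘ (Equiv.swap i i₀)) =
        (univ.erase i₀).image w := by
      rw [← Finset.image_image]
      congr 1
      ext k
      simp only [Finset.mem_image, Finset.mem_erase, Finset.mem_univ, and_true]
      constructor
      · rintro ⟨a, ha, rfl⟩ h
        apply ha
        have := congrArg (Equiv.swap i i₀) h
        simpa using this
      · intro hk
        refine ⟨Equiv.swap i i₀ k, fun h => hk ?_, by simp⟩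
        have := congrArg (Equiv.swap i i₀) h
        simpa using this
    rw [e1, e2, e3]
  have hsum : (n : ℝ) * ∑ w : Fin n → S, (∏ i, μ (w i)) * (if dm χ (O ∪ (univ.erase i₀).image w) <
      dm χ (O ∪ univ.image w) then (1 : ℝ) else 0) =
      ∑ i : Fin n, ∑ w : Fin n → S, (∏ i, μ (w i)) *
      (if dm χ (O ∪ (univ.erase i).image w) < dm χ (O ∪ univ.image w) then (1 : ℝ) else 0) := by
    rw [Finset.sum_congr rfl fun i _ => hsym i, Finset.sum_const, Finset.card_univ,
      Fintype.card_fin, nsmul_eq_mul]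
  rw [hsum, Finset.sum_comm]
  have hw : ∀ w : Fin n → S, ∑ i : Fin n, (∏ i, μ (w i)) *
      (if dm χ (O ∪ (univ.erase i).image w) < dm χ (O ∪ univ.image w) then (1 : ℝ) else 0) ≤
      (∏ i, μ (w i)) * c := by
    intro w
    rw [← Finset.mul_sum]
    refine mul_le_mul_of_nonneg_left ?_ (Finset.prod_nonneg fun i _ => hμ _)
    rw [← Finset.sum_filter, Finset.sum_const, nsmul_eq_mul, mul_one]
    exact_mod_cast ess_le χ O w
  refine (Finset.sum_le_sum fun w _ => hw w).trans ?_
  rw [← Finset.sum_mul, ← Fintype.prod_sum, Finset.prod_congr rfl fun i _ => h1,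
    Finset.prod_const_one, one_mul]

open Classical in
/-- **Exchangeability.** A fresh sample increases the maximum with probability at most
`c / (N + 1)`. -/
theorem fresh {N : ℕ} (O : Finset S) (μ : S → ℝ) (hμ : ∀ s, 0 ≤ μ s) (h1 : ∑ s, μ s = 1) :
    ((N : ℝ) + 1) * ∑ v : Fin N → S, (∏ i, μ (v i)) * ∑ y, μ y *
      (if dm χ (O ∪ univ.image v) < dm χ (insert y (O ∪ univ.image v)) then (1 : ℝ) else 0) ≤
      c := by
  have h := ess_pr χ (n := N + 1) O μ hμ h1 0
  push_cast at h
  refine le_trans (le_of_eq ?_) h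
  congr 1
  rw [← (Fin.consEquiv fun _ : Fin (N + 1) => S).sum_comp, Fintype.sum_prod_type, Finset.sum_comm]
  refine Finset.sum_congr rfl fun v _ => ?_
  rw [Finset.mul_sum]
  refine Finset.sum_congr rfl fun y _ => ?_
  have e0 : (Fin.consEquiv fun _ : Fin (N + 1) => S) (y, v) = Fin.cons y v := rfl
  rw [e0]
  have e1 : ∏ i, μ ((Fin.cons y v : Fin (N + 1) → S) i) = μ y * ∏ i, μ (v i) := by
    rw [Fin.prod_univ_succ]
    simp
  have e2 : ((univ : Finset (Fin (N + 1))).erase 0).image (Fin.cons y v : Fin (N + 1) → S) =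
      univ.image v := by
    ext s
    simp only [Finset.mem_image, Finset.mem_erase, Finset.mem_univ, and_true, true_and]
    constructor
    · rintro ⟨a, ha, rfl⟩
      obtain ⟨b, rfl⟩ := Fin.exists_succ_eq.2 ha
      exact ⟨b, by simp⟩
    · rintro ⟨b, rfl⟩
      exact ⟨b.succ, Fin.succ_ne_zero b, by simp⟩
  have e3 : (univ : Finset (Fin (N + 1))).image (Fin.cons y v : Fin (N + 1) → S) =
      insert y (univ.image v) := by
    ext s
    simp only [Finset.mem_image, Finset.mem_insert, Finset.mem_univ, true_and]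
    constructor
    · rintro ⟨a, rfl⟩
      rcases Fin.eq_zero_or_eq_succ a with h | ⟨b, rfl⟩
      · subst h
        left
        simp
      · right
        exact ⟨b, by simp⟩
    · rintro (h | ⟨b, rfl⟩)
      · exact ⟨0, by simp [h]⟩
      · exact ⟨b.succ, by simp⟩
  rw [e1, e2, e3, Finset.union_insert]
  ring

end exch

end Pool.OCV.MD
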