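import Pool.Agent.H79.OCV.Mix
import Pool.Agent.H98.KVA.IDX
import Pool.Agent.H65.OCM.Tim

/-!
# Theorem OCV in every codimension: the references

`c` lines through the point, `N` references of the mixed kernel on each line; the `c` references
with the maximal determinant are good.
-/

set_option autoImplicit false

namespace Pool.OCV.MD

open Finset Real Pool.OCM
open Pool.Agent.H49.Ent Pool.Agent.H32.Dense Pool.STK Pool.KAF
open Pool.OCV.SC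
open scoped NNReal

section gen

variable {Ω : Type} [Fintype Ω]

theorem Pr_iUn {R : Type} [Fintype R] {p : Ω → ℝ} (hp : ∀ ω, 0 ≤ p ω) (E : R → Set Ω) :
    Pr p {ω | ∃ r, ω ∈ E r} ≤ ∑ r, Pr p (E r) := by
  classical
  simp only [Pool.KAF.Pr_eq]
  rw [Finset.sum_comm]
  refine Finset.sum_le_sum fun ω _ => ?_
  have h0 : ∀ r ∈ (univ : Finset R), 0 ≤ (fun r => if ω ∈ E r then p ω else 0) r := fun r _ => by
    show 0 ≤ if ω ∈ E r then p ω else 0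
    split_ifs
    exacts [hp ω, le_rfl]
  by_cases h : ∃ r, ω ∈ E r
  · obtain ⟨r, hr⟩ := h
    rw [if_pos (show ω ∈ {ω | ∃ r, ω ∈ E r} from ⟨r, hr⟩)]
    have h2 := Finset.single_le_sum h0 (Finset.mem_univ r)
    beta_reduce at h2
    rw [if_pos hr] at h2
    exact h2
  · rw [if_neg (show ω ∉ {ω | ∃ r, ω ∈ E r} from h)]
    exact Finset.sum_nonneg h0

/-- Pigeonhole. -/
theorem Pr_pig {R : Type} [Fintype R] [Nonempty R] {p : Ω → ℝ} (hp : ∀ ω, 0 ≤ p ω)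
    (E : R → Set Ω) {G : Set Ω} {x : ℝ} (hx : x ≤ Pr p G)
    (hG : ∀ ω ∈ G, 0 < p ω → ∃ r, ω ∈ E r) : ∃ r, x / Fintype.card R ≤ Pr p (E r) := by
  by_contra hcon
  push Not at hcon
  have h1 : Pr p G ≤ ∑ r, Pr p (E r) :=
    (Pr_mono hp (fun ω hω h => hG ω h hω)).trans (Pr_iUn hp E)
  have h2 : ∑ r, Pr p (E r) < ∑ _r : R, x / Fintype.card R :=
    Finset.sum_lt_sum_of_nonempty ⟨Classical.arbitrary R, Finset.mem_univ _⟩ fun r _ => hcon r
  have h3 : (Fintype.card R : ℝ) ≠ 0 := by exact_mod_cast Fintype.card_ne_zero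
  rw [Finset.sum_const, Finset.card_univ, nsmul_eq_mul, mul_div_cancel₀ _ h3] at h2
  linarith

theorem mean_le {p : Ω → ℝ} (hp : IsLaw p) {f : Ω → ℝ} {δ : ℝ} (B : Set Ω) (hδ : 0 ≤ δ)
    (h : ∀ ω, 0 < p ω → ω ∉ B → f ω ≤ δ) (h1 : ∀ ω, 0 < p ω → f ω ≤ 1) :
    ∑ ω, p ω * f ω ≤ δ + Pr p B := by
  classical
  rw [Pool.KAF.Pr_eq, ← one_mul δ, ← hp.sum_one, Finset.sum_mul, ← Finset.sum_add_distrib]
  refine Finset.sum_le_sum fun ω _ => ?_
  rcases (hp.nonneg ω).eq_or_lt with h0 | h0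
  · rw [← h0]
    simp
  · by_cases hω : ω ∈ B
    · rw [if_pos hω]
      have := mul_le_mul_of_nonneg_left (h1 ω h0) h0.le
      have := mul_nonneg h0.le hδ
      linarith
    · rw [if_neg hω, add_zero]
      exact mul_le_mul_of_nonneg_left (h ω h0 hω) h0.le

/-- The probability of the image. -/
theorem Marg_Pr {Ω' : Type} [Fintype Ω'] {q : Ω' → ℝ} {p : Ω → ℝ} {f : Ω' → Ω}
    (h : Marg q p f) (E : Set Ω) : Pr q {w | f w ∈ E} = Pr p E :=
  h.law (fun w => w ∈ E) True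

end gen

variable {c : ℕ} (d : Dat c)

/-- The samples near the time of `ω`. -/
def nr (n : ℕ) (ω : d.Om) : Set d.Om :=
  {a | |d.th (d.T a) - d.th (d.T ω)| < (2 : ℝ) ^ (-(3 * (n : ℤ)))}

/-- The slope seen from `ω`. -/
noncomputable def ch (ω a : d.Om) : Fin c → ℝ := d.chi (d.T ω) (d.T a)

theorem near_mean {δ : ℝ} (hδ : 0 ≤ δ) {R : ℕ} {κ₂ π₁ : ℝ} {n : ℕ} (hn : n = ⌊κ₂ * d.X⌋₊)
    (hR : R ≤ n) (hn1 : 1 ≤ n) (hνn : κ₂ * d.X ≤ 3 * n) (hP : IsLaw d.P)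
    (h2 : Pr d.P {ω | δ * ⌊κ₂ * d.X⌋₊ < ∑ i ∈ Finset.Ico ⌊κ₂ * d.X⌋₊ (2 * ⌊κ₂ * d.X⌋₊),
        Pr (d.pk i ω) {v | |d.th (d.T v) - d.th (d.T ω)| < (2 : ℝ) ^ (-((i : ℤ) + R))}} ≤ π₁)
    (h3 : Pr d.P {ω | δ < Pr (d.pl ω)
        {v | |d.th (d.T v) - d.th (d.T ω)| < (2 : ℝ) ^ (-(κ₂ * d.X))}} ≤ π₁) :
    ∑ ω, d.P ω * Pr (kM d n ω) (nr d n ω) ≤ δ + 2 * π₁ := by
  rw [← hn] at h2
  have hn' : (0 : ℝ) < n := by exact_mod_cast hn1
  have h4 := mean_le hP (f := fun ω => Pr (kM d n ω) (nr d n ω)) (δ := δ)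
    ({ω | δ * n < ∑ i ∈ Finset.Ico n (2 * n),
        Pr (d.pk i ω) {v | |d.th (d.T v) - d.th (d.T ω)| < (2 : ℝ) ^ (-((i : ℤ) + R))}} ∪
      {ω | δ < Pr (d.pl ω)
        {v | |d.th (d.T v) - d.th (d.T ω)| < (2 : ℝ) ^ (-(κ₂ * d.X))}}) hδ ?_
    (fun ω hω => Pr_le_one (kM_law d hP hn1 hω) _)
  · refine h4.trans ?_
    have := Pr_union_le hP.nonneg {ω | δ * n < ∑ i ∈ Finset.Ico n (2 * n),
        Pr (d.pk i ω) {v | |d.th (d.T v) - d.th (d.T ω)| < (2 : ℝ) ^ (-((i : ℤ) + R))}}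
      {ω | δ < Pr (d.pl ω)
        {v | |d.th (d.T v) - d.th (d.T ω)| < (2 : ℝ) ^ (-(κ₂ * d.X))}}
    linarith
  · intro ω hω hB
    have k1 : ∑ i ∈ Finset.Ico n (2 * n),
        Pr (d.pk i ω) {v | |d.th (d.T v) - d.th (d.T ω)| < (2 : ℝ) ^ (-((i : ℤ) + R))} ≤ δ * n := by
      by_contra h5
      exact hB (Or.inl (not_le.1 h5))
    have k2 : Pr (d.pl ω)
        {v | |d.th (d.T v) - d.th (d.T ω)| < (2 : ℝ) ^ (-(κ₂ * d.X))} ≤ δ := by
      by_contra h5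
      exact hB (Or.inr (not_le.1 h5))
    show Pr (kM d n ω) (nr d n ω) ≤ δ
    rw [Pr_kM]
    have k3 : Pr (ker d true n ω) (nr d n ω) ≤ δ := by
      rw [GeoA.Pr_ker_true]
      unfold Dat.fm
      rw [div_le_iff₀ hn']
      refine (Finset.sum_le_sum fun i hi => ?_).trans k1
      rw [Finset.mem_Ico] at hi
      refine Pr_mono (GeoA.pk_law d hP hω i).nonneg fun a _ ha => ?_
      refine lt_of_lt_of_le (show |d.th (d.T a) - d.th (d.T ω)| < _ from ha) ?_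
      refine zpow_le_zpow_right₀ (by norm_num) ?_
      omega
    have k4 : Pr (ker d false n ω) (nr d n ω) ≤ δ := by
      rw [GeoA.ker_false]
      refine (Pr_mono (GeoA.pl_law d hP hω).nonneg fun a _ ha => ?_).trans k2
      refine lt_of_lt_of_le (show |d.th (d.T a) - d.th (d.T ω)| < _ from ha) ?_
      rw [GeoA.zpow_rpow]
      refine Real.rpow_le_rpow_of_exponent_le (by norm_num) ?_
      push_cast
      linarith
    linarith

theorem chi_le' {A : ℕ} (hok : d.OK A) (t t' : d.Tau) {r : ℝ} (hr : 0 < r)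
    (h : r ≤ |d.th t' - d.th t|) (i : Fin c) : |d.chi t t' i| ≤ 2 / r := by
  unfold Dat.chi
  rw [abs_div]
  have h1 : |d.S t' i - d.S t i| ≤ 2 := by
    have h2 := hok.hS t i
    have h3 := hok.hS t' i
    rw [abs_le] at h2 h3 ⊢
    constructor <;> linarith [h2.1, h2.2, h3.1, h3.2]
  exact div_le_div₀ (by norm_num) h1 hr h

theorem th_diff_le' {A : ℕ} (hok : d.OK A) (t t' : d.Tau) : |d.th t' - d.th t| ≤ 1 := by
  have h1 := hok.hth t
  have h2 := hok.hth t'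
  rw [abs_le]
  constructor <;> linarith [h1.1, h1.2, h2.1, h2.2]

theorem chi_comb' (t t' : d.Tau) (m : Fin c → ℝ) :
    |∑ i, m i * d.chi t t' i| = |∑ i, m i * (d.S t' i - d.S t i)| / |d.th t' - d.th t| := by
  unfold Dat.chi
  rw [← abs_div, Finset.sum_div]
  congr 1
  refine Finset.sum_congr rfl fun i _ => ?_
  ring

theorem nr_eq (n : ℕ) {ω w : d.Om} (h : d.T ω = d.T w) : nr d n ω = nr d n w := by
  unfold nr
  rw [h]

/-- No combination of the slopes is small, from (H6b). -/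
theorem comb_ge {A : ℕ} (hok : d.OK A) {n : ℕ} (hn : 1 ≤ n) {p θ : ℝ} {ω : d.Om}
    (hω : 0 < d.P ω) (hnear : ∑ w, d.pp ω w * Pr (kM d n w) (nr d n w) ≤ p / 4)
    (m : Fin c → ℝ)
    (hm : p ≤ ∑ w, d.pp ω w * Pr (d.pl w)
      {ρ | θ ≤ |∑ i, m i * (d.S (d.T ρ) i - d.S (d.T ω) i)|}) :
    p / 4 ≤ ∑ w, d.pp ω w * Pr (kM d n w) {a | θ ≤ |∑ l, m l * ch d ω a l|} := by
  have hP := hok.law
  have h1 : ∑ w, d.pp ω w * (Pr (d.pl w)
      {ρ | θ ≤ |∑ i, m i * (d.S (d.T ρ) i - d.S (d.T ω) i)|} / 2 -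
        Pr (kM d n w) (nr d n w)) ≤
      ∑ w, d.pp ω w * Pr (kM d n w) {a | θ ≤ |∑ l, m l * ch d ω a l|} := by
    refine Finset.sum_le_sum fun w _ => ?_
    rcases (pp_nonneg d hP ω w).eq_or_lt with h0 | h0
    · rw [← h0]
      simp
    refine mul_le_mul_of_nonneg_left ?_ h0.le
    obtain ⟨hw, hpt⟩ := pp_pos d hP h0
    have hT : d.T w = d.T ω := (Prod.ext_iff.1 (Prod.ext_iff.1 hpt).2).2
    have hl := kM_law d hP hn hw
    have k1 : Pr (d.pl w) {ρ | θ ≤ |∑ i, m i * (d.S (d.T ρ) i - d.S (d.T ω) i)|} / 2 ≤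
        Pr (kM d n w) {ρ | θ ≤ |∑ i, m i * (d.S (d.T ρ) i - d.S (d.T ω) i)|} := by
      rw [Pr_kM, GeoA.ker_false]
      have := Pool.KAF.Pr_nonneg (GeoA.ker_law d hP hw hn true).nonneg
        {ρ | θ ≤ |∑ i, m i * (d.S (d.T ρ) i - d.S (d.T ω) i)|}
      linarith
    have k2 : Pr (kM d n w) {ρ | θ ≤ |∑ i, m i * (d.S (d.T ρ) i - d.S (d.T ω) i)|} ≤
        Pr (kM d n w) {a | θ ≤ |∑ l, m l * ch d ω a l|} + Pr (kM d n w) (nr d n w) := by
      refine (Pr_mono hl.nonneg fun a _ ha => ?_).trans (Pr_union_le hl.nonneg _ _)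
      by_cases hna : a ∈ nr d n w
      · exact Or.inr hna
      · left
        have k3 : (2 : ℝ) ^ (-(3 * (n : ℤ))) ≤ |d.th (d.T a) - d.th (d.T w)| := not_lt.1 hna
        rw [hT] at k3
        have k4 : (0 : ℝ) < |d.th (d.T a) - d.th (d.T ω)| := lt_of_lt_of_le (by positivity) k3
        have k5 := th_diff_le' d hok (d.T ω) (d.T a)
        show θ ≤ |∑ l, m l * d.chi (d.T ω) (d.T a) l|
        rw [chi_comb', le_div_iff₀ k4]
        have k6 : θ ≤ |∑ i, m i * (d.S (d.T a) i - d.S (d.T ω) i)| := ha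
        rcases le_or_gt 0 θ with hθ | hθ
        · calc θ * |d.th (d.T a) - d.th (d.T ω)| ≤ θ * 1 := mul_le_mul_of_nonneg_left k5 hθ
            _ ≤ _ := by rw [mul_one]; exact k6
        · have : θ * |d.th (d.T a) - d.th (d.T ω)| ≤ 0 :=
            mul_nonpos_of_nonpos_of_nonneg hθ.le (abs_nonneg _)
          exact this.trans (abs_nonneg _)
    linarith
  have h2 : ∑ w, d.pp ω w * (Pr (d.pl w)
      {ρ | θ ≤ |∑ i, m i * (d.S (d.T ρ) i - d.S (d.T ω) i)|} / 2 -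
        Pr (kM d n w) (nr d n w)) =
      (∑ w, d.pp ω w * Pr (d.pl w)
        {ρ | θ ≤ |∑ i, m i * (d.S (d.T ρ) i - d.S (d.T ω) i)|}) / 2 -
      ∑ w, d.pp ω w * Pr (kM d n w) (nr d n w) := by
    rw [Finset.sum_div, ← Finset.sum_sub_distrib]
    exact Finset.sum_congr rfl fun w _ => by ring
  rw [h2] at h1
  linarith [pp_nonneg d hP ω ω]

/-- A good sample of the scheme. -/
theorem good_z {A : ℕ} (hok : d.OK A) {n N kmax : ℕ} (hn : 1 ≤ n) {dd θ : ℝ} (hθ : 0 < θ)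
    (hk1 : (2 : ℝ) ^ (3 * n + 1) ≤ 2 ^ kmax)
    (hk2 : (c.factorial : ℝ) * (c.factorial * ((2 : ℝ) ^ (3 * n + 1)) ^ c) ≤ 2 ^ kmax * θ ^ c)
    {z : d.Om × (Fin c → d.Om × (Fin N → d.Om))} (hz : 0 < QG d (kM d n) c N z)
    (hnr : ∀ u i, (z.2 u).2 i ∉ nr d n z.1)
    (hinc : ∀ u, Pr (kM d n (z.2 u).1) (inc d (ch d z.1) z.2) ≤ dd / 2)
    (hbig : θ ^ c ≤ (c.factorial : ℝ) * dm (ch d z.1) (smp z.2)) :
    ∃ f : Fin c → Fin c × Fin N, z ∈ Good d Prod.fst (fun k v => (v.2 (f k).1).1)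
      (fun k v => (v.2 (f k).1).2 (f k).2) n 0 kmax dd := by
  classical
  have hP := hok.law
  have hκ := kM_kr d hP hn
  have hf : (0 : ℝ) < c.factorial := by exact_mod_cast c.factorial_pos
  have hpos : (0 : ℝ) < dm (ch d z.1) (smp z.2) := by
    have : 0 < (c.factorial : ℝ) * dm (ch d z.1) (smp z.2) := lt_of_lt_of_le (by positivity) hbig
    exact (mul_pos_iff_of_pos_left hf).1 this
  have hpos' : 0 < dm (ch d z.1) (smp z.2) := by exact_mod_cast hpos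
  obtain ⟨τ, hτ, hdet⟩ := dm_att (ch d z.1) hpos'
  have hf' : ∀ k, ∃ p : Fin c × Fin N, (z.2 p.1).2 p.2 = τ k := by
    intro k
    have := hτ k
    unfold smp at this
    obtain ⟨p, -, hp⟩ := Finset.mem_image.1 this
    exact ⟨p, hp⟩
  choose f hf2 using hf'
  refine ⟨f, ?_, ?_, ?_⟩
  · obtain ⟨M, hM1, hM2⟩ := exists_crd (ch d z.1) (B := (2 : ℝ) ^ (3 * n + 1))
      (one_le_pow₀ (by norm_num)) (τ := τ) (k := kmax) (fun k j => by
        rw [← hf2 k]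
        have h1 : (2 : ℝ) ^ (-(3 * (n : ℤ))) ≤ |d.th (d.T ((z.2 (f k).1).2 (f k).2)) -
          d.th (d.T z.1)| := not_lt.1 (hnr _ _)
        have h2 := chi_le' d hok (d.T z.1) (d.T ((z.2 (f k).1).2 (f k).2)) (by positivity) h1 j
        rw [zpow_neg, div_inv_eq_mul] at h2
        have h3 : (2 : ℝ) * (2 : ℝ) ^ (3 * (n : ℤ)) = (2 : ℝ) ^ (3 * n + 1) := by
          rw [show (3 * (n : ℤ)) = ((3 * n : ℕ) : ℤ) by push_cast; ring, zpow_natCast, pow_succ]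
          ring
        rw [h3] at h2
        exact h2)
      (by rw [hdet]; exact hpos)
      (by
        rw [hdet]
        have h1 : (c.factorial : ℝ) * (c.factorial * ((2 : ℝ) ^ (3 * n + 1)) ^ c) ≤
            c.factorial * (2 ^ kmax * dm (ch d z.1) (smp z.2)) := by
          refine hk2.trans ?_
          have := mul_le_mul_of_nonneg_left hbig (show (0 : ℝ) ≤ 2 ^ kmax by positivity)
          linarith
        exact le_of_mul_le_mul_left h1 hf)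
      hk1
    refine ⟨M, hM1, fun k => ?_⟩
    have := hM2 k
    rw [← hf2 k] at this
    exact this
  · intro k
    exact not_lt.1 (hnr _ _)
  · intro M hM k
    have hw := (G_pos d hok hκ hz (f k).1).2.1
    have hinj : ∃ M' : Fin c → Fin c → ℝ, ∀ v, zc M' (zc M v) = v := by
      obtain ⟨-, M', -, h1, -⟩ := hM.1
      exact ⟨M', h1⟩
    have hMτ : ∀ k, zc M (ch d z.1 (τ k)) = Pi.single k 1 := by
      intro k
      rw [← hf2 k]
      exact hM.2 k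
    obtain ⟨E, hE⟩ : ∃ E : Set d.Om,
      E = {a | ∃ i, (2 : ℝ) ^ 0 < |zc M (d.chi (d.T z.1) (d.T a)) i|} := ⟨_, rfl⟩
    have h1 : Pr (kM d n (z.2 (f k).1).1) E ≤ dd / 2 := by
      refine (Pr_mono (hκ.nn _) fun a _ ha => ?_).trans (hinc (f k).1)
      rw [hE] at ha
      by_contra hcon
      obtain ⟨i, hi⟩ := ha
      have h2 := crd_le (ch d z.1) hτ hdet hpos' hMτ hinj (y := a) hcon i
      rw [pow_zero] at hi
      exact absurd h2 (not_le.2 hi)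
    rw [Pr_kM] at h1
    have h2 := Pool.KAF.Pr_nonneg (GeoA.ker_law d hP hw hn false).nonneg E
    have h3 : Pr (ker d true n (z.2 (f k).1).1) E ≤ dd := by linarith
    rw [GeoA.Pr_ker_true, hE] at h3
    exact h3

section pr

variable {A : ℕ} (hok : d.OK A) {κ : d.Om → d.Om → ℝ} (hκ : KR d κ) {N : ℕ}

include hok hκ

/-- Fresh samples. -/
theorem inc_pr {dd : ℝ} (hdd : 0 < dd) : Pr (QG d κ c N) {z | ∃ u : Fin c,
      z ∈ {z | dd / 2 < Pr (κ (z.2 u).1) (inc d (ch d z.1) z.2)}} ≤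
      c * (c / ((N : ℝ) + 1) / (dd / 2)) := by
  have hQ0 : ∀ z, 0 ≤ QG d κ c N z := QQ_nonneg (kokG d hok hκ (m := c) (N := N))
  have h3 : ∀ u : Fin c, Pr (QG d κ c N)
      {z | dd / 2 < Pr (κ (z.2 u).1) (inc d (ch d z.1) z.2)} ≤
      c / ((N : ℝ) + 1) / (dd / 2) := by
    intro u
    have h4 := inc_mean d hok hκ (N := N) (ch d) u
    obtain ⟨g, hg⟩ : ∃ g : d.Om × (Fin c → d.Om × (Fin N → d.Om)) → ℝ,
      g = fun z => Pr (κ (z.2 u).1) (inc d (ch d z.1) z.2) := ⟨_, rfl⟩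
    have hg0 : ∀ z, 0 ≤ g z := fun z => by
      rw [hg]
      exact Pool.KAF.Pr_nonneg (hκ.nn _) _
    have h5 : ((N : ℝ) + 1) * ∑ z, QG d κ c N z * g z ≤ c := by
      rw [hg]
      exact h4
    have h6 : ∑ z, QG d κ c N z * g z ≤ dd / 2 * (c / ((N : ℝ) + 1) / (dd / 2)) := by
      rw [mul_div_cancel₀ _ (by positivity : dd / 2 ≠ 0), le_div_iff₀ (by positivity), mul_comm]
      exact h5
    have h7 := Pool.KX.AVG.markov hQ0 g (fun z _ => hg0 z) (dd / 2) _ (by positivity) h6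
    rw [hg] at h7
    exact h7
  refine (Pr_iUn hQ0 _).trans ((Finset.sum_le_sum fun u _ => h3 u).trans ?_)
  rw [Finset.sum_const, Finset.card_univ, Fintype.card_fin, nsmul_eq_mul]

/-- Near samples. -/
theorem nr_pr {n : ℕ} {β : ℝ} (hβ : ∑ ω, d.P ω * Pr (κ ω) (nr d n ω) ≤ β) :
    Pr (QG d κ c N) {z | ∃ u : Fin c × Fin N,
      z ∈ {z | (z.2 u.1).2 u.2 ∈ nr d n z.1}} ≤ c * N * β := by
  classical
  have hQ0 : ∀ z, 0 ≤ QG d κ c N z := QQ_nonneg (kokG d hok hκ (m := c) (N := N))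
  have h4 : ∀ u : Fin c × Fin N, Pr (QG d κ c N)
      {z | (z.2 u.1).2 u.2 ∈ nr d n z.1} ≤ β := by
    rintro ⟨u, i⟩
    have h5 : Pr (QG d κ c N) {z | (z.2 u).2 i ∈ nr d n z.1} ≤
        Pr (QG d κ c N) {z | ((z.2 u).1, (z.2 u).2 i) ∈
          {x : d.Om × d.Om | x.2 ∈ nr d n x.1}} := by
      refine Pr_mono hQ0 fun z hz hz2 => ?_
      have h6 := (G_pos d hok hκ hz u).2.2.1
      have hT : d.T (z.2 u).1 = d.T z.1 := (Prod.ext_iff.1 (Prod.ext_iff.1 h6).2).2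
      show (z.2 u).2 i ∈ nr d n (z.2 u).1
      rw [nr_eq d n hT]
      exact hz2
    refine h5.trans ?_
    rw [Marg_Pr (G_comp d hok hκ u i) {x : d.Om × d.Om | x.2 ∈ nr d n x.1}]
    refine le_trans (le_of_eq ?_) hβ
    rw [Pool.KAF.Pr_eq, Fintype.sum_prod_type]
    refine Finset.sum_congr rfl fun ω _ => ?_
    rw [Pool.KAF.Pr_eq, Finset.mul_sum]
    refine Finset.sum_congr rfl fun a _ => ?_
    by_cases ha : a ∈ nr d n ω
    · rw [if_pos ha, if_pos (show (ω, a) ∈ {x : d.Om × d.Om | x.2 ∈ nr d n x.1} from ha)]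
    · rw [if_neg ha, if_neg (show (ω, a) ∉ {x : d.Om × d.Om | x.2 ∈ nr d n x.1} from ha),
        mul_zero]
  refine (Pr_iUn hQ0 _).trans ((Finset.sum_le_sum fun u _ => h4 u).trans ?_)
  rw [Finset.sum_const, Finset.card_univ, Fintype.card_prod, Fintype.card_fin,
    Fintype.card_fin, nsmul_eq_mul]
  push_cast
  exact le_rfl

/-- Large determinants. -/
theorem dt_pr (hN : 0 < N) {θ p x : ℝ} (hp : 0 < p) (hθ : 0 ≤ θ) (G : Set d.Om)
    (hx : x ≤ Pr d.P G)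
    (h : ∀ ω ∈ G, 0 < d.P ω → ∀ m : Fin c → ℝ, (∀ i, |m i| ≤ 1) → (∃ i, |m i| = 1) →
      p ≤ ∑ w, d.pp ω w * Pr (κ w) {a | θ ≤ |∑ l, m l * ch d ω a l|}) :
    x * p ^ c ≤ Pr (QG d κ c N)
      {z | θ ^ c ≤ (c.factorial : ℝ) * dm (ch d z.1) (smp z.2)} := by
  have hP := hok.law
  refine GeoA.Pr_fib_ge hP.nonneg
    (fun ω (x : Fin c → d.Om × (Fin N → d.Om)) => ∏ k, kG d κ N ω (x k))
    (fun ω _ x => Finset.prod_nonneg fun k _ => kG_nonneg d hok hκ ω (x k)) G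
    {z | θ ^ c ≤ (c.factorial : ℝ) * dm (ch d z.1) (smp z.2)} (by positivity) hx ?_
  intro ω hG hω
  have h1 := big_pr d hok hκ hN (χ := ch d ω) hω hp.le hθ (h ω hG hω)
  exact h1

end pr

/-- The probability of the good samples. -/
theorem good_pr {A : ℕ} (hok : d.OK A) {n N kmax : ℕ} (hn : 1 ≤ n) (hN : 0 < N)
    {dd θ p β x : ℝ} (hdd : 0 < dd) (hθ : 0 < θ) (hp : 0 < p)
    (hk1 : (2 : ℝ) ^ (3 * n + 1) ≤ 2 ^ kmax)
    (hk2 : (c.factorial : ℝ) * (c.factorial * ((2 : ℝ) ^ (3 * n + 1)) ^ c) ≤ 2 ^ kmax * θ ^ c)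
    (hβ : ∑ ω, d.P ω * Pr (kM d n ω) (nr d n ω) ≤ β)
    (h6 : x ≤ Pr d.P {ω | (∀ m : Fin c → ℝ, (∀ i, |m i| ≤ 1) → (∃ i, |m i| = 1) →
      p ≤ ∑ w, d.pp ω w * Pr (d.pl w)
        {ρ | θ ≤ |∑ i, m i * (d.S (d.T ρ) i - d.S (d.T ω) i)|}) ∧
        ∑ w, d.pp ω w * Pr (kM d n w) (nr d n w) ≤ p / 4}) :
    x * (p / 4) ^ c - c * (c / ((N : ℝ) + 1) / (dd / 2)) - c * N * β ≤
      Pr (QG d (kM d n) c N) {z | ∃ f : Fin c → Fin c × Fin N,
        z ∈ Good d Prod.fst (fun k v => (v.2 (f k).1).1)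
          (fun k v => (v.2 (f k).1).2 (f k).2) n 0 kmax dd} := by
  classical
  have hP := hok.law
  have hκ := kM_kr d hP hn
  have hkok := kokG d hok hκ (m := c) (N := N)
  have hQ0 : ∀ z, 0 ≤ QG d (kM d n) c N z := QQ_nonneg hkok
  have h1 := dt_pr d hok hκ hN (p := p / 4) (by positivity) hθ.le _ h6
    (fun ω hG hω m hm1 hm2 => comb_ge d hok hn hω hG.2 m (hG.1 m hm1 hm2))
  have h2 := inc_pr d hok hκ (N := N) hdd
  have h3 := nr_pr d hok hκ (N := N) hβ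
  obtain ⟨G0, hG0⟩ : ∃ G0 : Set (d.Om × (Fin c → d.Om × (Fin N → d.Om))),
    G0 = {z | ∃ f : Fin c → Fin c × Fin N,
        z ∈ Good d Prod.fst (fun k v => (v.2 (f k).1).1)
          (fun k v => (v.2 (f k).1).2 (f k).2) n 0 kmax dd} := ⟨_, rfl⟩
  obtain ⟨G1, hG1⟩ : ∃ G1 : Set (d.Om × (Fin c → d.Om × (Fin N → d.Om))),
    G1 = {z | ∃ u : Fin c, z ∈ {z | dd / 2 < Pr (kM d n (z.2 u).1)
      (inc d (ch d z.1) z.2)}} := ⟨_, rfl⟩
  obtain ⟨G2, hG2⟩ : ∃ G2 : Set (d.Om × (Fin c → d.Om × (Fin N → d.Om))),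
    G2 = {z | ∃ u : Fin c × Fin N, z ∈ {z | (z.2 u.1).2 u.2 ∈ nr d n z.1}} := ⟨_, rfl⟩
  rw [← hG1] at h2
  rw [← hG2] at h3
  rw [← hG0]
  have h4 : Pr (QG d (kM d n) c N)
      {z | θ ^ c ≤ (c.factorial : ℝ) * dm (ch d z.1) (smp z.2)} ≤
      Pr (QG d (kM d n) c N) (G0 ∪ (G1 ∪ G2)) := by
    refine Pr_mono hQ0 fun z hz hz2 => ?_
    by_cases c1 : z ∈ G1
    · exact Or.inr (Or.inl c1)
    by_cases c2 : z ∈ G2
    · exact Or.inr (Or.inr c2)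
    left
    rw [hG1] at c1
    rw [hG2] at c2
    rw [hG0]
    refine good_z d hok hn hθ hk1 hk2 hz (fun u i hui => c2 ⟨(u, i), hui⟩) (fun u => ?_) hz2
    by_contra h5
    exact c1 ⟨u, not_le.1 h5⟩
  have h5 := Pr_union_le hQ0 G0 (G1 ∪ G2)
  have h6 := Pr_union_le hQ0 G1 G2
  linarith

end Pool.OCV.MD
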