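import Pool.Agent.H79.OCV.Exch
import Mathlib.LinearAlgebra.Matrix.AbsoluteValue
import Mathlib.LinearAlgebra.Matrix.Block
import Mathlib.LinearAlgebra.Matrix.NonsingularInverse

/-!
# Maximal determinants of samples: coordinates, large determinants
-/

set_option autoImplicit false

namespace Pool.OCV.MD

open Finset Real Pool.OCM
open scoped NNReal

section crd

variable {S : Type} [Fintype S] {c : ℕ} (χ : S → Fin c → ℝ)

theorem zc_sum (M : Fin c → Fin c → ℝ) (a : Fin c → ℝ) (u : Fin c → Fin c → ℝ) :
    zc M (∑ k, a k • u k) = fun i => ∑ k, a k * zc M (u k) i := by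
  funext i
  unfold zc
  simp only [Finset.sum_apply, Pi.smul_apply, smul_eq_mul, Finset.mul_sum]
  rw [Finset.sum_comm]
  refine Finset.sum_congr rfl fun k _ => Finset.sum_congr rfl fun j _ => ?_
  ring

/-- **Cramer's rule.** -/
theorem crd_det {τ : Fin c → S} {M : Fin c → Fin c → ℝ}
    (hM : ∀ k, zc M (χ (τ k)) = Pi.single k 1)
    (hinj : ∃ M' : Fin c → Fin c → ℝ, ∀ v, zc M' (zc M v) = v) (y : S) (i : Fin c) :
    |zc M (χ y) i| * |(mt χ τ).det| = |(mt χ (Function.update τ i y)).det| := by
  obtain ⟨M', hM'⟩ := hinj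
  obtain ⟨a, ha⟩ : ∃ a, a = zc M (χ y) := ⟨_, rfl⟩
  have h1 : zc M (∑ k, a k • χ (τ k)) = a := by
    rw [zc_sum]
    funext j
    rw [Finset.sum_eq_single j]
    · rw [hM, Pi.single_eq_same, mul_one]
    · intro k _ hk
      rw [hM, Pi.single_eq_of_ne (Ne.symm hk), mul_zero]
    · intro h
      exact absurd (Finset.mem_univ _) h
  have h2 : χ y = ∑ k, a k • χ (τ k) := by
    calc χ y = zc M' (zc M (χ y)) := (hM' _).symm
      _ = zc M' a := by rw [ha]
      _ = zc M' (zc M (∑ k, a k • χ (τ k))) := by rw [h1]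
      _ = _ := hM' _
  have h3 : mt χ (Function.update τ i y) = (mt χ τ).updateRow i (∑ k, a k • (mt χ τ) k) := by
    ext j l
    by_cases hj : j = i
    · subst hj
      rw [Matrix.updateRow_self]
      have e1 : mt χ (Function.update τ j y) j l = χ y l := by
        unfold mt
        simp
      rw [e1, h2]
      rfl
    · rw [Matrix.updateRow_ne hj]
      unfold mt
      simp [hj]
  rw [h3, Matrix.det_updateRow_sum, smul_eq_mul, abs_mul, ← ha]

open Classical in
/-- A vector which does not increase the maximum has small coordinates. -/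
theorem crd_le {A : Finset S} {τ : Fin c → S} (hτ : ∀ k, τ k ∈ A)
    (hmax : |(mt χ τ).det| = dm χ A) (hpos : 0 < dm χ A) {M : Fin c → Fin c → ℝ}
    (hM : ∀ k, zc M (χ (τ k)) = Pi.single k 1)
    (hinj : ∃ M' : Fin c → Fin c → ℝ, ∀ v, zc M' (zc M v) = v) {y : S}
    (hy : ¬ dm χ A < dm χ (insert y A)) (i : Fin c) : |zc M (χ y) i| ≤ 1 := by
  classical
  have h1 := crd_det χ hM hinj y i
  have h2 : |(mt χ (Function.update τ i y)).det| ≤ dm χ (insert y A) := by
    refine le_dm χ fun k => ?_
    by_cases hk : k = i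
    · subst hk
      rw [Function.update_self]
      exact Finset.mem_insert_self _ _
    · rw [Function.update_of_ne hk]
      exact Finset.mem_insert_of_mem (hτ k)
  have h3 : ((dm χ (insert y A) : ℝ≥0) : ℝ) ≤ dm χ A := by exact_mod_cast not_lt.1 hy
  have h4 : (0 : ℝ) < |(mt χ τ).det| := by rw [hmax]; exact_mod_cast hpos
  rw [← h1] at h2
  have h5 : |zc M (χ y) i| * |(mt χ τ).det| ≤ 1 * |(mt χ τ).det| := by
    rw [one_mul]
    exact h2.trans (h3.trans (le_of_eq hmax.symm))
  exact le_of_mul_le_mul_right h5 h4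

/-- The matrix of the coordinates. -/
theorem exists_crd {B : ℝ} (hB : 1 ≤ B) {τ : Fin c → S} (hτ : ∀ k j, |χ (τ k) j| ≤ B)
    {k : ℕ} (hd : 0 < |(mt χ τ).det|)
    (hk : (c.factorial : ℝ) * B ^ c ≤ 2 ^ k * |(mt χ τ).det|) (hBk : B ≤ 2 ^ k) :
    ∃ M, ZOK k M ∧ ∀ k, zc M (χ (τ k)) = Pi.single k 1 := by
  classical
  obtain ⟨A, hA⟩ : ∃ A, A = (mt χ τ).transpose := ⟨_, rfl⟩
  have hdet : A.det = (mt χ τ).det := by rw [hA, Matrix.det_transpose]
  have hu : IsUnit A.det := by
    rw [hdet, isUnit_iff_ne_zero]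
    exact abs_pos.1 hd
  have hAe : ∀ i j, A i j = χ (τ j) i := fun i j => by
    rw [hA]
    rfl
  have zc_mv : ∀ (P : Matrix (Fin c) (Fin c) ℝ) (v : Fin c → ℝ),
      zc (fun i j => P i j) v = P.mulVec v := by
    intro P v
    funext i
    rfl
  have h1 : ∀ v, zc (fun i j => A i j) (zc (fun i j => A⁻¹ i j) v) = v := by
    intro v
    rw [zc_mv, zc_mv, Matrix.mulVec_mulVec, Matrix.mul_nonsing_inv A hu, Matrix.one_mulVec]
  have h2 : ∀ v, zc (fun i j => A⁻¹ i j) (zc (fun i j => A i j) v) = v := by
    intro v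
    rw [zc_mv, zc_mv, Matrix.mulVec_mulVec, Matrix.nonsing_inv_mul A hu, Matrix.one_mulVec]
  have h3 : ∀ k, zc (fun i j => A⁻¹ i j) (χ (τ k)) = Pi.single k 1 := by
    intro k
    have e1 : χ (τ k) = zc (fun i j => A i j) (Pi.single k 1) := by
      funext i
      unfold zc
      rw [Finset.sum_eq_single k]
      · rw [Pi.single_eq_same, mul_one]
        exact (hAe i k).symm
      · intro j _ hj
        rw [Pi.single_eq_of_ne hj, mul_zero]
      · intro h
        exact absurd (Finset.mem_univ _) h
    rw [e1, h2]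
  have hbig : ∀ i j, |A⁻¹ i j| ≤ 2 ^ k := by
    intro i j
    -- the coordinate of a unit vector, by Cramer's rule on an enlarged type
    obtain ⟨χ', hχ'⟩ : ∃ χ' : Option S → Fin c → ℝ, χ' = fun o => o.elim (Pi.single j 1) χ :=
      ⟨_, rfl⟩
    have e0 : ∀ k, χ' (some (τ k)) = χ (τ k) := fun k => by rw [hχ']; rfl
    have e1 := crd_det χ' (τ := fun k => some (τ k)) (M := fun i j => A⁻¹ i j)
      (fun k => by rw [e0]; exact h3 k) ⟨_, h1⟩ none i
    have e2 : zc (fun i j => A⁻¹ i j) (χ' none) i = A⁻¹ i j := by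
      rw [hχ']
      show zc (fun i j => A⁻¹ i j) (Pi.single j 1) i = _
      unfold zc
      rw [Finset.sum_eq_single j]
      · rw [Pi.single_eq_same, mul_one]
      · intro l _ hl
        rw [Pi.single_eq_of_ne hl, mul_zero]
      · intro h
        exact absurd (Finset.mem_univ _) h
    have e3 : (mt χ' fun k => some (τ k)) = mt χ τ := by
      ext a b
      unfold mt
      simp only [Matrix.of_apply]
      rw [e0]
    rw [e2, e3] at e1
    have e4 : |(mt χ' (Function.update (fun k => some (τ k)) i none)).det| ≤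
        (c.factorial : ℝ) * B ^ c := by
      have := Matrix.det_le (A := mt χ' (Function.update (fun k => some (τ k)) i none))
        (abv := (AbsoluteValue.abs : AbsoluteValue ℝ ℝ)) (x := B) (fun a b => by
          show |_| ≤ B
          unfold mt
          simp only [Matrix.of_apply]
          by_cases ha : a = i
          · subst ha
            rw [Function.update_self, hχ']
            show |(Pi.single j (1 : ℝ) : Fin c → ℝ) b| ≤ B
            by_cases hb : b = j
            · subst hb
              rw [Pi.single_eq_same, abs_one]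
              exact hB
            · rw [Pi.single_eq_of_ne hb, abs_zero]
              linarith
          · rw [Function.update_of_ne ha, e0]
            exact hτ _ _)
      rw [Fintype.card_fin, nsmul_eq_mul] at this
      exact this
    have e5 : |A⁻¹ i j| * |(mt χ τ).det| ≤ 2 ^ k * |(mt χ τ).det| := by
      rw [e1]
      exact e4.trans hk
    exact le_of_mul_le_mul_right e5 hd
  refine ⟨fun i j => A⁻¹ i j, ⟨hbig, fun i j => A i j, fun i j => ?_, h1, h2⟩, h3⟩
  show |A i j| ≤ 2 ^ k
  rw [hAe]
  exact (hτ j i).trans hBk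

end crd

section greedy

variable {V : Type} [Fintype V] {c : ℕ}

/-- A unit covector orthogonal to fewer than `c` vectors. -/
theorem exists_orth {r : ℕ} (hr : r < c) (u : Fin r → Fin c → ℝ) :
    ∃ m : Fin c → ℝ, (∀ i, |m i| ≤ 1) ∧ (∃ i, |m i| = 1) ∧ ∀ j, ∑ l, m l * u j l = 0 := by
  classical
  let f : (Fin c → ℝ) →ₗ[ℝ] (Fin r → ℝ) :=
    { toFun := fun m j => ∑ l, m l * u j l
      map_add' := fun x y => by
        funext j
        simp only [Pi.add_apply, add_mul, Finset.sum_add_distrib]
      map_smul' := fun a x => by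
        funext j
        simp only [Pi.smul_apply, smul_eq_mul, RingHom.id_apply, Finset.mul_sum, mul_assoc] }
  have hker : LinearMap.ker f ≠ ⊥ := by
    refine LinearMap.ker_ne_bot_of_finrank_lt ?_
    rw [Module.finrank_fin_fun, Module.finrank_fin_fun]
    exact hr
  obtain ⟨x, hx, hx0⟩ := (Submodule.ne_bot_iff _).mp hker
  have hfx : ∀ j, ∑ l, x l * u j l = 0 := fun j => congrFun (LinearMap.mem_ker.1 hx) j
  have hne : (univ : Finset (Fin c)).Nonempty := ⟨⟨0, by omega⟩, Finset.mem_univ _⟩
  obtain ⟨i₀, -, hi₀⟩ := Finset.exists_max_image univ (fun i => |x i|) hne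
  have hpos : 0 < |x i₀| := by
    rcases (abs_nonneg (x i₀)).eq_or_lt with h | h
    · exfalso
      apply hx0
      funext i
      have := hi₀ i (Finset.mem_univ _)
      rw [← h] at this
      exact abs_nonpos_iff.1 this
    · exact h
  refine ⟨fun i => x i / |x i₀|, fun i => ?_, ⟨i₀, ?_⟩, fun j => ?_⟩
  · rw [abs_div, abs_abs]
    exact (div_le_one hpos).2 (hi₀ i (Finset.mem_univ _))
  · rw [abs_div, abs_abs, div_self hpos.ne']
  · have e1 : ∀ l, x l / |x i₀| * u j l = x l * u j l / |x i₀| := fun l => by ring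
    rw [Finset.sum_congr rfl fun l _ => e1 l, ← Finset.sum_div, hfx, zero_div]

/-- The vectors are transversal. -/
def Tr (χ : V → Fin c → ℝ) (θ : ℝ) (r : ℕ) (v : Fin r → V) : Prop :=
  ∃ m : Fin r → Fin c → ℝ, (∀ i j, |m i j| ≤ 1) ∧ (∀ i, θ ≤ |∑ l, m i l * χ (v i) l|) ∧
    ∀ i j, i < j → ∑ l, m i l * χ (v j) l = 0

open Classical in
theorem tr_pr (μ : V → ℝ) (hμ : ∀ s, 0 ≤ μ s) (χ : V → Fin c → ℝ) {θ p : ℝ} (hp : 0 ≤ p)
    (h : ∀ m : Fin c → ℝ, (∀ i, |m i| ≤ 1) → (∃ i, |m i| = 1) →
      p ≤ ∑ x, μ x * (if θ ≤ |∑ l, m l * χ x l| then (1 : ℝ) else 0)) :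
    ∀ r ≤ c, p ^ r ≤ ∑ v : Fin r → V, (∏ i, μ (v i)) * (if Tr χ θ r v then (1 : ℝ) else 0) := by
  intro r
  induction r with
  | zero =>
    intro _
    rw [pow_zero]
    have h0 : ∀ v : Fin 0 → V, Tr χ θ 0 v := fun v =>
      ⟨fun i => Fin.elim0 i, fun i => Fin.elim0 i, fun i => Fin.elim0 i, fun i => Fin.elim0 i⟩
    simp [h0]
  | succ r ih =>
    intro hr
    have ih' := ih (by omega)
    rw [← (Fin.consEquiv fun _ : Fin (r + 1) => V).sum_comp, Fintype.sum_prod_type,
      Finset.sum_comm, pow_succ]
    calc p ^ r * p ≤ (∑ v : Fin r → V, (∏ i, μ (v i)) * (if Tr χ θ r v then (1 : ℝ) else 0)) * p :=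
          mul_le_mul_of_nonneg_right ih' hp
      _ = ∑ v : Fin r → V, (∏ i, μ (v i)) * (if Tr χ θ r v then (1 : ℝ) else 0) * p := by
          rw [Finset.sum_mul]
      _ ≤ _ := by
          refine Finset.sum_le_sum fun v _ => ?_
          have hprod : 0 ≤ ∏ i, μ (v i) := Finset.prod_nonneg fun i _ => hμ _
          have e0 : ∀ y : V, (Fin.consEquiv fun _ : Fin (r + 1) => V) (y, v) = Fin.cons y v :=
            fun _ => rfl
          have e1 : ∀ y : V, ∏ i, μ ((Fin.cons y v : Fin (r + 1) → V) i) =
              μ y * ∏ i, μ (v i) := fun y => by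
            rw [Fin.prod_univ_succ]
            simp
          have hnn : ∀ y : V, 0 ≤ (∏ i, μ (((Fin.consEquiv fun _ : Fin (r + 1) => V) (y, v)) i)) *
              (if Tr χ θ (r + 1) ((Fin.consEquiv fun _ : Fin (r + 1) => V) (y, v)) then (1 : ℝ)
                else 0) := by
            intro y
            refine mul_nonneg (Finset.prod_nonneg fun i _ => hμ _) ?_
            split_ifs <;> norm_num
          by_cases hv : Tr χ θ r v
          · rw [if_pos hv, mul_one]
            obtain ⟨m, hm1, hm2, hm3⟩ := hv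
            obtain ⟨m₀, k1, k2, k3⟩ := exists_orth (c := c) (r := r) (by omega) fun j => χ (v j)
            have hm0 := h m₀ k1 k2
            calc (∏ i, μ (v i)) * p ≤ (∏ i, μ (v i)) *
                  ∑ x, μ x * (if θ ≤ |∑ l, m₀ l * χ x l| then (1 : ℝ) else 0) :=
                  mul_le_mul_of_nonneg_left hm0 hprod
              _ = ∑ x, (μ x * ∏ i, μ (v i)) *
                  (if θ ≤ |∑ l, m₀ l * χ x l| then (1 : ℝ) else 0) := by
                  rw [Finset.mul_sum]
                  exact Finset.sum_congr rfl fun x _ => by ring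
              _ ≤ _ := by
                  refine Finset.sum_le_sum fun x _ => ?_
                  rw [e0, e1]
                  refine mul_le_mul_of_nonneg_left ?_ (mul_nonneg (hμ _) hprod)
                  by_cases hx : θ ≤ |∑ l, m₀ l * χ x l|
                  · rw [if_pos hx, if_pos]
                    refine ⟨Fin.cons m₀ m, ?_, ?_, ?_⟩
                    · intro i
                      refine Fin.cases ?_ (fun i => ?_) i
                      · simpa using k1
                      · simpa using hm1 i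
                    · intro i
                      refine Fin.cases ?_ (fun i => ?_) i
                      · simpa using hx
                      · simpa using hm2 i
                    · intro i j hij
                      obtain ⟨j', rfl⟩ := Fin.exists_succ_eq.2
                        (show j ≠ 0 from fun e => by subst e; exact absurd hij (Fin.not_lt_zero i))
                      revert hij
                      refine Fin.cases ?_ (fun i => ?_) i
                      · intro _
                        simpa using k3 j'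
                      · intro hij
                        simpa using hm3 i j' (by simpa using hij)
                  · rw [if_neg hx]
                    split_ifs <;> norm_num
          · rw [if_neg hv, mul_zero, zero_mul]
            exact Finset.sum_nonneg fun y _ => hnn y

/-- The determinant of transversal vectors. -/
theorem tr_det [DecidableEq V] {χ : V → Fin c → ℝ} {θ : ℝ} (hθ : 0 ≤ θ) {v : Fin c → V}
    (h : Tr χ θ c v) : θ ^ c ≤ (c.factorial : ℝ) * |(mt χ v).det| := by
  classical
  obtain ⟨m, hm1, hm2, hm3⟩ := h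
  obtain ⟨P, hP⟩ : ∃ P : Matrix (Fin c) (Fin c) ℝ, P = Matrix.of m := ⟨_, rfl⟩
  have e1 : ∀ i j, (P * (mt χ v).transpose) i j = ∑ l, m i l * χ (v j) l := by
    intro i j
    rw [Matrix.mul_apply, hP]
    rfl
  have e2 : (P * (mt χ v).transpose).det = ∏ i, ∑ l, m i l * χ (v i) l := by
    rw [Matrix.det_of_isLowerTriangular (P * (mt χ v).transpose) (fun i j hij => by
      rw [e1]
      exact hm3 i j hij)]
    exact Finset.prod_congr rfl fun i _ => e1 i i
  rw [Matrix.det_mul, Matrix.det_transpose] at e2
  have e3 : |P.det| ≤ (c.factorial : ℝ) := by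
    have := Matrix.det_le (A := P) (abv := (AbsoluteValue.abs : AbsoluteValue ℝ ℝ)) (x := 1)
      (fun a b => by
        show |_| ≤ (1 : ℝ)
        rw [hP]
        exact hm1 a b)
    rw [Fintype.card_fin, nsmul_eq_mul, one_pow, mul_one] at this
    exact this
  calc θ ^ c = ∏ _i : Fin c, θ := by rw [Finset.prod_const, Finset.card_univ, Fintype.card_fin]
    _ ≤ ∏ i, |∑ l, m i l * χ (v i) l| := Finset.prod_le_prod (fun _ _ => hθ) fun i _ => hm2 i
    _ = |P.det * (mt χ v).det| := by rw [e2, Finset.abs_prod]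
    _ = |P.det| * |(mt χ v).det| := abs_mul _ _
    _ ≤ _ := mul_le_mul_of_nonneg_right e3 (abs_nonneg _)

end greedy

end Pool.OCV.MD
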