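import Pool.Agent.H79.OCV.SchG
import Pool.Agent.H79.OCV.Lin
import Pool.Agent.H66.OCV.CaseA

/-!
# The mixed kernel: a fine or a coarse reference

The bound for the increase of the maximal determinant by a fresh sample, and the lower bound for
the maximal determinant.
-/

set_option autoImplicit false

namespace Pool.OCV.MD

open Finset Real Pool.OCM
open Pool.Agent.H49.Ent Pool.Agent.H32.Dense Pool.STK Pool.KAF
open Pool.OCV.SC
open scoped NNReal

variable {c : ℕ} (d : Dat c)

/-- The mixed kernel. -/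
noncomputable def kM (n : ℕ) (ω a : d.Om) : ℝ := (ker d true n ω a + ker d false n ω a) / 2

/-- The labels of the mixed kernel. -/
noncomputable def lbM (n : ℕ) (i : Fin (n + n)) (t : d.Tau) : ℤ :=
  Fin.addCases (motive := fun _ => ℤ) (fun i : Fin n => ⌊(2 : ℝ) ^ (n + i.val) * d.th t⌋)
    (fun _ : Fin n => 0) i

theorem kM_eq {n : ℕ} (hn : 1 ≤ n) : kM d n = gk d.P d.L d.T (lbM d n) := by
  have hn' : (n : ℝ) ≠ 0 := by exact_mod_cast (by omega : n ≠ 0)
  funext ω a
  unfold gk
  rw [Fin.sum_univ_add]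
  have e1 : ∀ i : Fin n, ck d.P d.L d.T (lbM d n) (Fin.castAdd n i) ω a =
      d.pk (n + i) ω a := by
    intro i
    have e : lbi d.L d.T (lbM d n) (Fin.castAdd n i) = fun v => (d.L v, d.Ti (n + i) v) := by
      funext v
      unfold lbi lbM Dat.Ti
      rw [Fin.addCases_left]
    unfold ck
    rw [e]
    rfl
  have e2 : ∀ i : Fin n, ck d.P d.L d.T (lbM d n) (Fin.natAdd n i) ω a = d.pl ω a := by
    intro i
    have e : lbi d.L d.T (lbM d n) (Fin.natAdd n i) = fun v => (d.L v, (0 : ℤ)) := by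
      funext v
      unfold lbi lbM
      rw [Fin.addCases_right]
    unfold ck Dat.pl Pool.Agent.H49.Ent.cond
    rw [e]
    rw [law_unit]
    by_cases h : d.L a = d.L ω <;> simp [h]
  rw [Finset.sum_congr rfl fun i _ => e1 i, Finset.sum_congr rfl fun i _ => e2 i]
  unfold kM
  rw [GeoA.ker_true, GeoA.ker_false, Finset.sum_const, Finset.card_univ, Fintype.card_fin,
    nsmul_eq_mul, Finset.sum_Ico_eq_sum_range, Finset.sum_range, show 2 * n - n = n by omega]
  push_cast
  field_simp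
  ring

theorem kM_kr (hl : IsLaw d.P) {n : ℕ} (hn : 1 ≤ n) : KR d (kM d n) := by
  rw [kM_eq d hn]
  exact gk_kr d hl (by omega) _

theorem kM_law (hl : IsLaw d.P) {n : ℕ} (hn : 1 ≤ n) {ω : d.Om} (hω : 0 < d.P ω) :
    IsLaw (kM d n ω) := ⟨(kM_kr d hl hn).nn ω, (kM_kr d hl hn).one ω hω⟩

theorem Pr_kM (n : ℕ) (ω : d.Om) (E : Set d.Om) :
    Pr (kM d n ω) E = (Pr (ker d true n ω) E + Pr (ker d false n ω) E) / 2 := by
  classical
  rw [Pool.KAF.Pr_eq, Pool.KAF.Pr_eq, Pool.KAF.Pr_eq, ← Finset.sum_add_distrib, Finset.sum_div]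
  refine Finset.sum_congr rfl fun a _ => ?_
  unfold kM
  split_ifs <;> simp

section inc

variable {A : ℕ} (hok : d.OK A) {κ : d.Om → d.Om → ℝ} (hκ : KR d κ) {m N : ℕ}

open Classical in
/-- The references. -/
noncomputable def smp {Ω : Type} {m N : ℕ} (x : Fin m → Ω × (Fin N → Ω)) : Finset Ω :=
  univ.image fun p : Fin m × Fin N => (x p.1).2 p.2

theorem mem_smp {Ω : Type} {m N : ℕ} (x : Fin m → Ω × (Fin N → Ω)) (u : Fin m) (i : Fin N) :
    (x u).2 i ∈ smp x := by
  classical
  unfold smp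
  exact Finset.mem_image.2 ⟨(u, i), Finset.mem_univ _, rfl⟩

open Classical in
theorem smp_update {Ω : Type} {m N : ℕ} (x : Fin m → Ω × (Fin N → Ω)) (u : Fin m)
    (y : Ω × (Fin N → Ω)) : smp (Function.update x u y) =
      ((univ.filter fun p : Fin m × Fin N => p.1 ≠ u).image fun p => (x p.1).2 p.2) ∪
        univ.image y.2 := by
  ext s
  unfold smp
  simp only [Finset.mem_image, Finset.mem_univ, true_and, Finset.mem_union, Finset.mem_filter]
  constructor
  · rintro ⟨⟨j, i⟩, rfl⟩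
    by_cases hj : j = u
    · subst hj
      right
      exact ⟨i, by simp⟩
    · left
      exact ⟨(j, i), hj, by simp [hj]⟩
  · rintro (⟨⟨j, i⟩, hj, rfl⟩ | ⟨i, rfl⟩)
    · exact ⟨(j, i), by simp [show j ≠ u from hj]⟩
    · exact ⟨(u, i), by simp⟩

open Classical in
/-- A fresh sample on the line `u` increases the maximum. -/
noncomputable def inc (χ : d.Om → Fin c → ℝ) (x : Fin m → d.Om × (Fin N → d.Om)) : Set d.Om :=
  {y | dm χ (smp x) < dm χ (insert y (smp x))}

include hok hκ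

/-- The mean probability that a fresh sample increases the maximum. -/
theorem inc_mean (χ : d.Om → d.Om → Fin c → ℝ) (u : Fin m) :
    ((N : ℝ) + 1) * ∑ z, QG d κ m N z * Pr (κ (z.2 u).1) (inc d (χ z.1) z.2) ≤ c := by
  classical
  have hkok := kokG d hok hκ (m := m) (N := N)
  rw [Fintype.sum_prod_type]
  unfold QG QQ
  simp only [mul_assoc]
  have hin : ∀ ω, 0 < d.P ω → ∑ x : Fin m → d.Om × (Fin N → d.Om),
      (∏ k, kG d κ N ω (x k)) * Pr (κ (x u).1) (inc d (χ ω) x) ≤ c / ((N : ℝ) + 1) := by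
    intro ω hω
    rw [prod_rs (fun _ => kG d κ N ω) u (hkok.one u ω hω)]
    have h2 : ∀ x : Fin m → d.Om × (Fin N → d.Om),
        ∑ y, kG d κ N ω y * Pr (κ (Function.update x u y u).1) (inc d (χ ω)
          (Function.update x u y)) ≤ c / ((N : ℝ) + 1) := by
      intro x
      set O : Finset d.Om := (univ.filter fun p : Fin m × Fin N => p.1 ≠ u).image
        fun p => (x p.1).2 p.2 with hO
      rw [Fintype.sum_prod_type]
      have h3 : ∀ w : d.Om, ∑ v : Fin N → d.Om, kG d κ N ω (w, v) *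
          Pr (κ (Function.update x u (w, v) u).1) (inc d (χ ω) (Function.update x u (w, v))) ≤
          d.pp ω w * (c / ((N : ℝ) + 1)) := by
        intro w
        unfold kG
        simp only [mul_assoc]
        rw [← Finset.mul_sum]
        rcases (pp_nonneg d hok.law ω w).eq_or_lt with h0 | h0
        · rw [← h0, zero_mul, zero_mul]
        refine mul_le_mul_of_nonneg_left ?_ h0.le
        have hw := (pp_pos d hok.law h0).1
        have h4 := fresh (χ ω) (N := N) O (κ w) (hκ.nn w) (hκ.one w hw)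
        rw [le_div_iff₀ (by positivity), mul_comm]
        refine le_trans (le_of_eq ?_) h4
        congr 1
        refine Finset.sum_congr rfl fun v _ => ?_
        congr 1
        rw [Function.update_self, Pool.KAF.Pr_eq]
        refine Finset.sum_congr rfl fun y _ => ?_
        have e1 : (y ∈ inc d (χ ω) (Function.update x u (w, v))) ↔
            dm (χ ω) (O ∪ univ.image v) < dm (χ ω) (insert y (O ∪ univ.image v)) := by
          unfold inc
          rw [Set.mem_setOf_eq, smp_update]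
        by_cases hy : dm (χ ω) (O ∪ univ.image v) < dm (χ ω) (insert y (O ∪ univ.image v))
        · rw [if_pos (e1.2 hy), if_pos hy, mul_one]
        · rw [if_neg (fun h => hy (e1.1 h)), if_neg hy, mul_zero]
      refine (Finset.sum_le_sum fun w _ => h3 w).trans ?_
      rw [← Finset.sum_mul, show ∑ w, d.pp ω w = 1 from
        sum_cond d.P _ (law_pos hok.law.nonneg _ hω).ne', one_mul]
    refine (Finset.sum_le_sum fun x _ => mul_le_mul_of_nonneg_left (h2 x)
      (Finset.prod_nonneg fun k _ => hkok.nn k ω (x k))).trans ?_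
    rw [← Finset.sum_mul, prod_one (fun _ => kG d κ N ω) (fun k => hkok.one k ω hω), one_mul]
  have hN : (0 : ℝ) < (N : ℝ) + 1 := by positivity
  have h5 : ∑ ω, ∑ x : Fin m → d.Om × (Fin N → d.Om), d.P ω *
      ((∏ k, kG d κ N ω (x k)) * Pr (κ (x u).1) (inc d (χ ω) x)) ≤ c / ((N : ℝ) + 1) := by
    calc _ ≤ ∑ ω, d.P ω * (c / ((N : ℝ) + 1)) := by
          refine Finset.sum_le_sum fun ω _ => ?_
          rw [← Finset.mul_sum]
          rcases (hok.law.nonneg ω).eq_or_lt with h0 | h0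
          · rw [← h0, zero_mul, zero_mul]
          · exact mul_le_mul_of_nonneg_left (hin ω h0) h0.le
      _ = _ := by rw [← Finset.sum_mul, hok.law.sum_one, one_mul]
  rw [le_div_iff₀ hN, mul_comm] at h5
  exact h5

/-- The law of the line and of one reference. -/
theorem kG_pair (hN : 0 < N) (ω : d.Om) (hω : 0 < d.P ω) (F : d.Om → d.Om → ℝ) :
    ∑ x : d.Om × (Fin N → d.Om), kG d κ N ω x * F x.1 (x.2 ⟨0, hN⟩) =
      ∑ w, d.pp ω w * ∑ a, κ w a * F w a := by
  classical
  rw [Fintype.sum_prod_type]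
  refine Finset.sum_congr rfl fun w _ => ?_
  unfold kG
  simp only [mul_assoc]
  rw [← Finset.mul_sum]
  rcases (pp_nonneg d hok.law ω w).eq_or_lt with h0 | h0
  · rw [← h0, zero_mul, zero_mul]
  congr 1
  have hw := (pp_pos d hok.law h0).1
  rw [prod_rs (fun _ => κ w) ⟨0, hN⟩ (hκ.one w hw) (fun v => F w (v ⟨0, hN⟩))]
  simp only [Function.update_self]
  rw [← Finset.sum_mul, prod_one (fun _ => κ w) (fun _ => hκ.one w hw), one_mul]

/-- The maximal determinant is large with positive probability. -/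
theorem big_pr (hN : 0 < N) {χ : d.Om → Fin c → ℝ} {ω : d.Om} (hω : 0 < d.P ω) {θ p : ℝ}
    (hp : 0 ≤ p) (hθ : 0 ≤ θ)
    (h : ∀ m : Fin c → ℝ, (∀ i, |m i| ≤ 1) → (∃ i, |m i| = 1) →
      p ≤ ∑ w, d.pp ω w * Pr (κ w) {a | θ ≤ |∑ l, m l * χ a l|}) :
    p ^ c ≤ Pr (fun x : Fin c → d.Om × (Fin N → d.Om) => ∏ k, kG d κ N ω (x k))
      {x | θ ^ c ≤ (c.factorial : ℝ) * dm χ (smp x)} := by
  classical
  have h1 := tr_pr (c := c) (kG d κ N ω) (kG_nonneg d hok hκ ω)
    (fun x => χ (x.2 ⟨0, hN⟩)) (θ := θ) (p := p) hp (fun m hm1 hm2 => ?_) c le_rfl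
  · refine h1.trans ?_
    rw [Pool.KAF.Pr_eq]
    refine Finset.sum_le_sum fun x _ => ?_
    have hpr : 0 ≤ ∏ k, kG d κ N ω (x k) :=
      Finset.prod_nonneg fun k _ => kG_nonneg d hok hκ ω (x k)
    by_cases hx : Tr (fun x : d.Om × (Fin N → d.Om) => χ (x.2 ⟨0, hN⟩)) θ c x
    · rw [if_pos hx, mul_one, if_pos]
      have h2 := tr_det hθ hx
      have h3 := le_dm χ (A := smp x) (τ := fun k => (x k).2 ⟨0, hN⟩) fun k => mem_smp x k _
      have e1 : mt (fun x : d.Om × (Fin N → d.Om) => χ (x.2 ⟨0, hN⟩)) x =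
          mt χ (fun k => (x k).2 ⟨0, hN⟩) := rfl
      rw [e1] at h2
      exact h2.trans (mul_le_mul_of_nonneg_left h3 (Nat.cast_nonneg _))
    · rw [if_neg hx, mul_zero]
      split_ifs
      · exact hpr
      · exact le_rfl
  · refine (h m hm1 hm2).trans (le_of_eq ?_)
    rw [kG_pair d hok hκ hN ω hω (fun _ a => if θ ≤ |∑ l, m l * χ a l| then (1 : ℝ) else 0)]
    refine Finset.sum_congr rfl fun w _ => ?_
    congr 1
    rw [Pool.KAF.Pr_eq]
    refine Finset.sum_congr rfl fun a _ => ?_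
    by_cases ha : θ ≤ |∑ l, m l * χ a l|
    · rw [if_pos (show a ∈ {a | θ ≤ |∑ l, m l * χ a l|} from ha), if_pos ha, mul_one]
    · rw [if_neg (show a ∉ {a | θ ≤ |∑ l, m l * χ a l|} from ha), if_neg ha, mul_zero]

end inc

end Pool.OCV.MD
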