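import Pool.Agent.H50.OCV.Sch

/-!
# Schemes of references: several lines through the point, several references on each line

`m` lines, independent given the point of the base sample, and `N` references on each line,
independent given the line. Every choice of `c` of the references is a scheme.
-/

set_option autoImplicit false

namespace Pool.OCV.SC

open Finset Real
open Pool.Agent.H49.Ent Pool.Agent.H32.Dense Pool.STK Pool.KAF
open Pool.OC.RS (mi_eq mi_comm mi_eq' mi_nonneg mi_congr mi_chain mi_mono mi_mono_left)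

variable {c : ℕ}

/-- The kernel of one line with its references. -/
noncomputable def kG (d : Dat c) (κ : d.Om → d.Om → ℝ) (N : ℕ) (ω : d.Om)
    (x : d.Om × (Fin N → d.Om)) : ℝ := d.pp ω x.1 * ∏ i, κ x.1 (x.2 i)

/-- The law of the lines and the references. -/
noncomputable def QG (d : Dat c) (κ : d.Om → d.Om → ℝ) (m N : ℕ) :
    d.Om × (Fin m → d.Om × (Fin N → d.Om)) → ℝ := QQ d.P (fun _ : Fin m => kG d κ N)

/-- Replacement of a reference. -/
def rG {Ω : Type} {m N : ℕ} (u : Fin m) (i : Fin N) (z : Ω × (Fin m → Ω × (Fin N → Ω))) (x : Ω) :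
    Ω × (Fin m → Ω × (Fin N → Ω)) :=
  (z.1, Function.update z.2 u ((z.2 u).1, Function.update (z.2 u).2 i x))

section G

variable (d : Dat c) {A : ℕ} (hok : d.OK A) {κ : d.Om → d.Om → ℝ} (hκ : KR d κ) {m N : ℕ}

include hok hκ

theorem kok1 : KOk d.P (fun _ : Fin N => κ) where
  law := hok.law
  nn := fun _ => hκ.nn
  one := fun _ => hκ.one

theorem kG_nonneg (ω : d.Om) (x : d.Om × (Fin N → d.Om)) : 0 ≤ kG d κ N ω x :=
  mul_nonneg (pp_nonneg d hok.law _ _) (Finset.prod_nonneg fun _ _ => hκ.nn _ _)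

theorem kG_inner (ω w : d.Om) :
    d.pp ω w * ∑ v : Fin N → d.Om, ∏ i, κ w (v i) = d.pp ω w := by
  rcases (pp_nonneg d hok.law ω w).eq_or_lt with h0 | h0
  · rw [← h0, zero_mul]
  · rw [prod_one (fun _ => κ w) (fun _ => hκ.one w (pp_pos d hok.law h0).1), mul_one]

theorem kokG : KOk d.P (fun _ : Fin m => kG d κ N) where
  law := hok.law
  nn := fun _ ω x => kG_nonneg d hok hκ ω x
  one := fun _ ω hω => by
    unfold kG
    rw [Fintype.sum_prod_type]
    simp only
    rw [Finset.sum_congr rfl fun w _ => (Finset.mul_sum _ _ _).symm,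
      Finset.sum_congr rfl fun w _ => kG_inner d hok hκ ω w]
    exact sum_cond d.P _ (law_pos hok.law.nonneg _ hω).ne'

theorem kG_pos {ω : d.Om} {x : d.Om × (Fin N → d.Om)} (h : 0 < kG d κ N ω x) :
    0 < d.P x.1 ∧ d.pt x.1 = d.pt ω ∧ ∀ i, 0 < d.P (x.2 i) ∧ d.L (x.2 i) = d.L x.1 := by
  have h4 : 0 < d.pp ω x.1 := by
    refine lt_of_le_of_ne (pp_nonneg d hok.law _ _) fun e => ?_
    unfold kG at h
    rw [← e, zero_mul] at h
    exact lt_irrefl _ h
  obtain ⟨h6, h7⟩ := pp_pos d hok.law h4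
  refine ⟨h6, h7, fun i => hκ.pos _ _ ?_⟩
  refine lt_of_le_of_ne (hκ.nn _ _) fun e => ?_
  unfold kG at h
  rw [Finset.prod_eq_zero (Finset.mem_univ i) e.symm, mul_zero] at h
  exact lt_irrefl _ h

theorem G_pos {z : d.Om × (Fin m → d.Om × (Fin N → d.Om))} (hz : 0 < QG d κ m N z)
    (u : Fin m) : 0 < d.P z.1 ∧ 0 < d.P (z.2 u).1 ∧ d.pt (z.2 u).1 = d.pt z.1 ∧
      ∀ i, 0 < d.P ((z.2 u).2 i) ∧ d.L ((z.2 u).2 i) = d.L (z.2 u).1 := by
  obtain ⟨h1, h2⟩ := QQ_pos (kokG d hok hκ) hz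
  exact ⟨h1, kG_pos d hok hκ (h2 u)⟩

/-- The law of a line with its references. -/
theorem G_line (u : Fin m) : Marg (QG d κ m N) (QQ d.P (fun _ : Fin N => κ))
    (fun z => z.2 u) := by
  classical
  have h1 := QQ_pair (kokG d hok hκ (m := m) (N := N)) u
  have h2 : Marg (fun w : d.Om × (d.Om × (Fin N → d.Om)) => d.P w.1 * kG d κ N w.1 w.2)
      (QQ d.P (fun _ : Fin N => κ)) (fun w => w.2) := by
    intro x
    rw [Fintype.sum_prod_type]
    trans ∑ ω, d.P ω * d.pp ω x.1 * ∏ i, κ x.1 (x.2 i)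
    · refine Finset.sum_congr rfl fun ω _ => ?_
      rw [Finset.sum_eq_single x]
      · rw [if_pos rfl]
        unfold kG
        simp only
        ring
      · intro b _ hb
        rw [if_neg]
        exact hb
      · intro h
        exact absurd (Finset.mem_univ _) h
    · rw [← Finset.sum_mul, show ∑ ω, d.P ω * d.pp ω x.1 = d.P x.1 from
        cond_stat hok.law.nonneg d.pt x.1]
      rfl
  exact h1.comp h2

theorem G_comp (u : Fin m) (i : Fin N) : Marg (QG d κ m N)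
    (fun x : d.Om × d.Om => d.P x.1 * κ x.1 x.2) (fun z => ((z.2 u).1, (z.2 u).2 i)) :=
  (G_line d hok hκ u).comp (QQ_pair (kok1 d hok hκ) i)

theorem kG_rs (i : Fin N) (ω : d.Om) (F : d.Om × (Fin N → d.Om) → ℝ) :
    ∑ x, kG d κ N ω x * F x =
      ∑ x, kG d κ N ω x * ∑ y, κ x.1 y * F (x.1, Function.update x.2 i y) := by
  classical
  rw [Fintype.sum_prod_type, Fintype.sum_prod_type]
  refine Finset.sum_congr rfl fun w _ => ?_
  unfold kG
  simp only [mul_assoc]
  rw [← Finset.mul_sum, ← Finset.mul_sum]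
  rcases (pp_nonneg d hok.law ω w).eq_or_lt with h0 | h0
  · rw [← h0, zero_mul, zero_mul]
  · congr 1
    exact prod_rs (fun _ => κ w) i (hκ.one w (pp_pos d hok.law h0).1) fun v => F (w, v)

/-- Resampling of one reference. -/
theorem G_rs (u : Fin m) (i : Fin N) : Rs (QG d κ m N) (fun z x => κ (z.2 u).1 x)
    (fun z x => rG u i z x) := by
  classical
  have hkok := kokG d hok hκ (m := m) (N := N)
  refine ⟨QQ_nonneg hkok, fun F => ?_⟩
  unfold QG rG
  rw [(QQ_rs hkok u).eq F, (QQ_rs hkok u).eq (fun z => ∑ x, κ (z.2 u).1 x *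
    F (z.1, Function.update z.2 u ((z.2 u).1, Function.update (z.2 u).2 i x)))]
  refine Finset.sum_congr rfl fun z _ => ?_
  congr 1
  simp only [Function.update_self, Function.update_idem]
  exact kG_rs d hok hκ i z.1 fun x => F (z.1, Function.update z.2 u x)

/-- The time of the reference, given the line and the time. -/
theorem G_ref {S : Type} (u : Fin m) (i : Fin N) (W : d.Om × (Fin m → d.Om × (Fin N → d.Om)) → S)
    (hW : ∀ z x, W (rG u i z x) = W z)
    (hd : Det (QG d κ m N) W (fun z => (d.L (z.2 u).1, d.T (z.2 u).1))) :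
    CH (QG d κ m N) (fun z => d.T ((z.2 u).2 i)) W =
      CH (fun w : d.Om × d.Om => d.P w.1 * κ w.1 w.2) (fun w => d.T w.2)
        (fun w => (d.L w.1, d.T w.1)) := by
  rw [(G_rs d hok hκ u i).CH_eq (fun z => d.T ((z.2 u).2 i)) d.T
    (fun z x => by unfold rG; simp) W hW
    (fun z => (d.L (z.2 u).1, d.T (z.2 u).1)) (fun z x => by unfold rG; simp) hd
    (fun z z' _ _ h t => by
      have e := Prod.ext_iff.mp h
      rw [hκ.dep _ _ e.1 e.2])]
  exact (G_comp d hok hκ u i).CH (fun w : d.Om × d.Om => d.T w.2)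
    (fun w => (d.L w.1, d.T w.1))

/-- The time of the reference, given the context and the time. -/
theorem G_ref' {S : Type} (u : Fin m) (i : Fin N)
    (W : d.Om × (Fin m → d.Om × (Fin N → d.Om)) → S)
    (hd : Det (QG d κ m N) W (fun z => (d.T (z.2 u).1, d.B (z.2 u).1))) :
    CH (QG d κ m N) (fun z => d.T ((z.2 u).2 i)) W ≤
      CH (fun w : d.Om × d.Om => d.P w.1 * κ w.1 w.2) (fun w => d.T w.2)
        (fun w => (d.T w.1, d.B w.1)) := by
  have h1 := (G_comp d hok hκ u i).CH (fun w : d.Om × d.Om => d.T w.2)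
    (fun w => (d.T w.1, d.B w.1))
  have h2 := CH_mono_cond (QQ_nonneg (kokG d hok hκ (m := m) (N := N)))
    (X := fun z : d.Om × (Fin m → d.Om × (Fin N → d.Om)) => d.T ((z.2 u).2 i)) hd
  change CH (QG d κ m N) (fun z => d.T ((z.2 u).2 i)) W ≤
    CH (QG d κ m N) (fun z => d.T ((z.2 u).2 i)) _ at h2
  linarith

theorem G_fst (u : Fin m) : Marg (QG d κ m N) d.P (fun z => (z.2 u).1) :=
  (G_line d hok hκ u).comp (QQ_fst (kok1 d hok hκ))

/-- The normal position and the context of the line `k`. -/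
theorem G_mn (u : Fin m) {ι : ℝ} (h7 : d.H7 ι) :
    Pool.KVA.MI (QG d κ m N) (fun z => d.N z.1) (fun z => d.B (z.2 u).1)
      (fun z => (d.vis z.1, d.T z.1)) ≤ ι * d.X := by
  have hQ0 : ∀ z, 0 ≤ QG d κ m N z := QQ_nonneg (kokG d hok hκ)
  have hpt : ∀ z, 0 < QG d κ m N z → d.vis (z.2 u).1 = d.vis z.1 ∧
      d.N (z.2 u).1 = d.N z.1 ∧ d.T (z.2 u).1 = d.T z.1 := by
    intro z hz
    have h := (G_pos d hok hκ hz u).2.2.1
    have h1 := Prod.ext_iff.mp h
    exact ⟨h1.1, Prod.ext_iff.mp h1.2⟩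
  have e1 := mi_mono_left hQ0 (fun z => d.N (z.2 u).1) (fun z => d.N z.1)
    (fun z => d.B (z.2 u).1) (fun z => (d.vis z.1, d.T z.1)) (fun z z' hz hz' h => by
      have e : d.N (z.2 u).1 = d.N (z'.2 u).1 := (Prod.ext_iff.mp h).1
      rw [(hpt z hz).2.1, (hpt z' hz').2.1] at e
      exact e)
  have e2 := mi_congr hQ0 (fun z => d.N (z.2 u).1) (fun z => d.B (z.2 u).1)
    (b := fun z => (d.vis z.1, d.T z.1)) (b' := fun z => (d.vis (z.2 u).1, d.T (z.2 u).1))
    (fun z z' hz hz' h => by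
      obtain ⟨a1, -, a2⟩ := hpt z hz
      obtain ⟨b1, -, b2⟩ := hpt z' hz'
      change (d.vis (z.2 u).1, d.T (z.2 u).1) = (d.vis (z'.2 u).1, d.T (z'.2 u).1)
      rw [a1, a2, b1, b2]
      exact h)
    (fun z z' hz hz' h => by
      obtain ⟨a1, -, a2⟩ := hpt z hz
      obtain ⟨b1, -, b2⟩ := hpt z' hz'
      change (d.vis z.1, d.T z.1) = (d.vis z'.1, d.T z'.1)
      rw [← a1, ← a2, ← b1, ← b2]
      exact h)
  have e3 := Marg.MI (G_fst d hok hκ (N := N) u) d.N d.B (fun ω => (d.vis ω, d.T ω))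
  have e4 : Pool.KVA.MI d.P d.N d.B (fun ω => (d.vis ω, d.T ω)) ≤ ι * d.X := h7
  change Pool.KVA.MI (QG d κ m N) (fun z => d.N z.1)
    (fun z => d.B (z.2 u).1) (fun z => (d.vis z.1, d.T z.1)) ≤ _ at e1
  refine e1.trans ?_
  change Pool.OC.RS.mi (QG d κ m N) (fun z => d.N (z.2 u).1)
    (fun z => d.B (z.2 u).1) (fun z => (d.vis z.1, d.T z.1)) ≤ _
  rw [e2]
  exact (le_of_eq e3).trans e4

theorem G_det (u : Fin m) : Det (QG d κ m N)
    (fun z => (d.L (z.2 u).1, (d.vis z.1, d.T z.1))) (fun z => d.N z.1) := by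
  intro z z' hz hz' h
  have e := Prod.ext_iff.mp h
  obtain ⟨a1, a2, a3, a4⟩ := G_pos d hok hκ hz u
  obtain ⟨b1, b2, b3, b4⟩ := G_pos d hok hκ hz' u
  have a5 := Prod.ext_iff.mp (Prod.ext_iff.mp a3).2
  have b5 := Prod.ext_iff.mp (Prod.ext_iff.mp b3).2
  have e2 : d.T z.1 = d.T z'.1 := (Prod.ext_iff.mp e.2).2
  have a6 : d.T (z.2 u).1 = d.T z.1 := a5.2
  have b6 : d.T (z'.2 u).1 = d.T z'.1 := b5.2
  have a7 : d.N (z.2 u).1 = d.N z.1 := a5.1
  have b7 : d.N (z'.2 u).1 = d.N z'.1 := b5.1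
  change d.N z.1 = d.N z'.1
  rw [← a7, ← b7]
  refine hok.hN _ _ a2 b2 (Prod.ext e.1 ?_)
  change d.T (z.2 u).1 = d.T (z'.2 u).1
  rw [a6, b6, e2]

omit hκ in
theorem rG_fst (u : Fin m) (i : Fin N) (z : d.Om × (Fin m → d.Om × (Fin N → d.Om)))
    (x : d.Om) (j : Fin m) : ((rG u i z x).2 j).1 = (z.2 j).1 := by
  unfold rG
  by_cases h : j = u
  · subst h
    simp
  · simp [h]

omit hκ in
theorem rG_snd {u j : Fin m} {i l : Fin N} (z : d.Om × (Fin m → d.Om × (Fin N → d.Om)))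
    (x : d.Om) (h : ¬(j = u ∧ l = i)) : ((rG u i z x).2 j).2 l = (z.2 j).2 l := by
  unfold rG
  by_cases hj : j = u
  · subst hj
    have hl : l ≠ i := fun e => h ⟨rfl, e⟩
    simp [hl]
  · simp [hj]

/-- The times of the references of one line. -/
theorem G_own {S S' : Type} (u : Fin m) (Z : d.Om × (Fin m → d.Om × (Fin N → d.Om)) → S)
    (hZ : Det (QG d κ m N) Z (fun z => (d.T (z.2 u).1, d.B (z.2 u).1)))
    (W : d.Om × (Fin m → d.Om × (Fin N → d.Om)) → S')
    (hW : ∀ i z x, W (rG u i z x) = W z)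
    (hd : Det (QG d κ m N) W (fun z => (d.L (z.2 u).1, d.T (z.2 u).1))) :
    CH (QG d κ m N) (fun z (i : Fin N) => d.T ((z.2 u).2 i)) Z -
      CH (QG d κ m N) (fun z (i : Fin N) => d.T ((z.2 u).2 i)) W ≤
      N * Pool.KVA.MI d.P d.T d.L d.B := by
  classical
  have hQ0 : ∀ z, 0 ≤ QG d κ m N z := QQ_nonneg (kokG d hok hκ)
  have h1 := sel_univ hQ0 (fun i z => d.T ((z.2 u).2 i)) Z
  have h2 := sel_univ hQ0 (fun i z => d.T ((z.2 u).2 i)) W
  have h3 := sel_le hQ0 (fun i z => d.T ((z.2 u).2 i)) Z univ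
  have h4 := sel_ge hQ0 (fun i z => d.T ((z.2 u).2 i)) W univ
  have h5 : ∑ i : Fin N, CH (QG d κ m N) (fun z => d.T ((z.2 u).2 i)) Z -
      ∑ i : Fin N, CH (QG d κ m N) (fun z => d.T ((z.2 u).2 i))
        (fun z => (sel (fun i z => d.T ((z.2 u).2 i)) (univ.erase i) z, W z)) ≤
      N * Pool.KVA.MI d.P d.T d.L d.B := by
    rw [← Finset.sum_sub_distrib]
    have h6 : ∀ i : Fin N, CH (QG d κ m N) (fun z => d.T ((z.2 u).2 i)) Z -
        CH (QG d κ m N) (fun z => d.T ((z.2 u).2 i))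
          (fun z => (sel (fun i z => d.T ((z.2 u).2 i)) (univ.erase i) z, W z)) ≤
        Pool.KVA.MI d.P d.T d.L d.B := by
      intro i
      have e7 := G_ref' d hok hκ u i Z hZ
      have e8 := G_ref d hok hκ u i
        (fun z => (sel (fun i z => d.T ((z.2 u).2 i)) (univ.erase i) z, W z))
        (fun z x => Prod.ext (sel_inv (fun i (z : d.Om × (Fin m → d.Om × (Fin N → d.Om))) =>
          d.T ((z.2 u).2 i)) i (ω := z) (ω' := rG u i z x) fun l hl => by
            rw [rG_snd d hok z x (fun h => hl h.2)]) (hW i z x))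
        (fun z z' hz hz' h => hd z z' hz hz' (Prod.ext_iff.mp h).2)
      have e9 := hκ.mi
      rw [e8]
      linarith
    refine (Finset.sum_le_sum fun i _ => h6 i).trans ?_
    rw [Finset.sum_const, Finset.card_univ, Fintype.card_fin, nsmul_eq_mul]
  rw [h1, h2]
  linarith

/-- The times of the references on another line. -/
theorem G_oth (j : Fin m) {ι : ℝ} (h1 : Pool.KVA.MI d.P d.T d.L d.B ≤ ι * d.X)
    (h7 : d.H7 ι) :
    CH (QG d κ m N) (fun z (i : Fin N) => d.T ((z.2 j).2 i)) (fun z => (d.vis z.1, d.T z.1)) -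
      CH (QG d κ m N) (fun z (i : Fin N) => d.T ((z.2 j).2 i)) (fun z => d.pt z.1) ≤
      (N + 1) * (ι * d.X) := by
  have hQ0 : ∀ z, 0 ≤ QG d κ m N z := QQ_nonneg (kokG d hok hκ)
  set Q := QG d κ m N with hQ
  have e1 : CH Q (fun z (i : Fin N) => d.T ((z.2 j).2 i)) (fun z => d.pt z.1) =
      CH Q (fun z (i : Fin N) => d.T ((z.2 j).2 i))
        (fun z => (d.N z.1, (d.vis z.1, d.T z.1))) := by
    refine CH_congr hQ0 (fun _ _ _ _ h => (Prod.ext_iff.mp h).1)
      (fun _ _ _ _ h => (Prod.ext_iff.mp h).1) ?_ ?_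
    · intro z z' _ _ h
      have a := Prod.ext_iff.mp h
      have b := Prod.ext_iff.mp a.2
      exact Prod.ext b.1 (Prod.ext a.1 b.2)
    · intro z z' _ _ h
      have a := Prod.ext_iff.mp h
      have b := Prod.ext_iff.mp a.2
      exact Prod.ext b.1 (Prod.ext a.1 b.2)
  rw [e1, ← mi_eq' hQ0 (fun z => d.N z.1) (fun z (i : Fin N) => d.T ((z.2 j).2 i))
    (fun z => (d.vis z.1, d.T z.1))]
  have e2 := mi_mono hQ0 (fun z => d.N z.1)
    (fun z => (d.B (z.2 j).1, fun (i : Fin N) => d.T ((z.2 j).2 i)))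
    (fun z (i : Fin N) => d.T ((z.2 j).2 i)) (fun z => (d.vis z.1, d.T z.1))
    (fun _ _ _ _ h => (Prod.ext_iff.mp (Prod.ext_iff.mp h).1).2)
  have e3 := mi_chain hQ0 (fun z => d.N z.1) (fun z => d.B (z.2 j).1)
    (fun z (i : Fin N) => d.T ((z.2 j).2 i)) (fun z => (d.vis z.1, d.T z.1))
  have e4 := G_mn d hok hκ (N := N) j h7
  have e5 := mi_mono_left hQ0 (fun z => d.L (z.2 j).1) (fun z => d.N z.1)
    (fun z (i : Fin N) => d.T ((z.2 j).2 i)) (fun z => (d.B (z.2 j).1, (d.vis z.1, d.T z.1)))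
    (fun z z' a b h => by
      have e := Prod.ext_iff.mp h
      exact G_det d hok hκ j z z' a b (Prod.ext e.1 (Prod.ext_iff.mp e.2).2))
  have e6 := mi_eq' hQ0 (fun z => d.L (z.2 j).1) (fun z (i : Fin N) => d.T ((z.2 j).2 i))
    (fun z => (d.B (z.2 j).1, (d.vis z.1, d.T z.1)))
  have hT : ∀ z, 0 < Q z → d.T (z.2 j).1 = d.T z.1 := fun z hz =>
    (Prod.ext_iff.mp (Prod.ext_iff.mp (G_pos d hok hκ hz j).2.2.1).2).2
  have e7 := G_own d hok hκ j (fun z => (d.B (z.2 j).1, (d.vis z.1, d.T z.1)))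
    (fun z z' hz hz' h => by
      have e := Prod.ext_iff.mp h
      have e' : d.T z.1 = d.T z'.1 := (Prod.ext_iff.mp e.2).2
      refine Prod.ext ?_ e.1
      change d.T (z.2 j).1 = d.T (z'.2 j).1
      rw [hT z hz, hT z' hz', e'])
    (fun z => (d.L (z.2 j).1, (d.B (z.2 j).1, (d.vis z.1, d.T z.1))))
    (fun i z x => by
      change (d.L ((rG j i z x).2 j).1, (d.B ((rG j i z x).2 j).1, (d.vis z.1, d.T z.1))) = _
      rw [rG_fst d hok])
    (fun z z' hz hz' h => by
      have e := Prod.ext_iff.mp h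
      have e' : d.T z.1 = d.T z'.1 := (Prod.ext_iff.mp (Prod.ext_iff.mp e.2).2).2
      refine Prod.ext e.1 ?_
      change d.T (z.2 j).1 = d.T (z'.2 j).1
      rw [hT z hz, hT z' hz', e'])
  have e8 : (N : ℝ) * Pool.KVA.MI d.P d.T d.L d.B ≤ N * (ι * d.X) :=
    mul_le_mul_of_nonneg_left h1 (Nat.cast_nonneg _)
  change Pool.OC.RS.mi Q (fun z => d.N z.1) (fun z => d.B (z.2 j).1)
    (fun z => (d.vis z.1, d.T z.1)) ≤ _ at e4
  linarith

theorem G_fam (k : Fin m) {ι : ℝ} (hι : 0 ≤ ι)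
    (h1 : Pool.KVA.MI d.P d.T d.L d.B ≤ ι * d.X) (h7 : d.H7 ι) :
    Pool.KVA.MI (QG d κ m N) (fun z => d.L (z.2 k).1)
      (fun z (j : Fin m) (i : Fin N) => d.T ((z.2 j).2 i))
      (fun z => ((d.vis z.1, d.T z.1), d.B (z.2 k).1)) ≤ m * ((N + 1) * (ι * d.X)) := by
  classical
  have hkok := kokG d hok hκ (m := m) (N := N)
  have hX : (0 : ℝ) ≤ ι * d.X := mul_nonneg hι (Nat.cast_nonneg _)
  set Q := QG d κ m N with hQ
  have hQ0 : ∀ z, 0 ≤ Q z := QQ_nonneg hkok
  have h2 := mi_fam hQ0 (fun z => d.L (z.2 k).1) (fun j z (i : Fin N) => d.T ((z.2 j).2 i))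
    (fun z => ((d.vis z.1, d.T z.1), d.B (z.2 k).1))
  refine h2.trans ?_
  have hT : ∀ z, 0 < Q z → d.T (z.2 k).1 = d.T z.1 := fun z hz =>
    (Prod.ext_iff.mp (Prod.ext_iff.mp (G_pos d hok hκ hz k).2.2.1).2).2
  have h3 : ∀ j : Fin m, CH Q (fun z (i : Fin N) => d.T ((z.2 j).2 i))
      (fun z => ((d.vis z.1, d.T z.1), d.B (z.2 k).1)) -
      CH Q (fun z (i : Fin N) => d.T ((z.2 j).2 i))
        (fun z => (sel (fun j z (i : Fin N) => d.T ((z.2 j).2 i)) (univ.erase j) z,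
        (d.L (z.2 k).1, ((d.vis z.1, d.T z.1), d.B (z.2 k).1)))) ≤ (N + 1) * (ι * d.X) := by
    intro j
    by_cases hj : k = j
    · subst hj
      have e7 := G_own d hok hκ k (fun z => ((d.vis z.1, d.T z.1), d.B (z.2 k).1))
        (fun z z' hz hz' h => by
          have e := Prod.ext_iff.mp h
          have e' : d.T z.1 = d.T z'.1 := (Prod.ext_iff.mp e.1).2
          refine Prod.ext ?_ e.2
          change d.T (z.2 k).1 = d.T (z'.2 k).1
          rw [hT z hz, hT z' hz', e'])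
        (fun z => (sel (fun j z (i : Fin N) => d.T ((z.2 j).2 i)) (univ.erase k) z,
          (d.L (z.2 k).1, ((d.vis z.1, d.T z.1), d.B (z.2 k).1))))
        (fun i z x => Prod.ext (sel_inv (fun j (z : d.Om × (Fin m → d.Om × (Fin N → d.Om)))
          (i : Fin N) => d.T ((z.2 j).2 i)) k (ω := z) (ω' := rG k i z x)
          fun l hl => by
            funext i'
            rw [rG_snd d hok z x (fun h => hl h.1)]) (by
              change (d.L ((rG k i z x).2 k).1, ((d.vis z.1, d.T z.1),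
                d.B ((rG k i z x).2 k).1)) = _
              rw [rG_fst d hok]))
        (fun z z' hz hz' h => by
          have e := Prod.ext_iff.mp (Prod.ext_iff.mp h).2
          have e' : d.T z.1 = d.T z'.1 := (Prod.ext_iff.mp (Prod.ext_iff.mp e.2).1).2
          refine Prod.ext e.1 ?_
          change d.T (z.2 k).1 = d.T (z'.2 k).1
          rw [hT z hz, hT z' hz', e'])
      have e8 : (N : ℝ) * Pool.KVA.MI d.P d.T d.L d.B ≤ N * (ι * d.X) :=
        mul_le_mul_of_nonneg_left h1 (Nat.cast_nonneg _)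
      linarith
    · have e1 := G_oth d hok hκ (N := N) j h1 h7
      have e2 : CH Q (fun z (i : Fin N) => d.T ((z.2 j).2 i))
          (fun z => ((d.vis z.1, d.T z.1), d.B (z.2 k).1)) ≤
          CH Q (fun z (i : Fin N) => d.T ((z.2 j).2 i)) (fun z => (d.vis z.1, d.T z.1)) :=
        CH_mono_cond hQ0 fun _ _ _ _ h => (Prod.ext_iff.mp h).1
      have e3 : CH Q (fun z (i : Fin N) => d.T ((z.2 j).2 i)) (fun z => (d.pt z.1,
          (sel (fun j z (i : Fin N) => d.T ((z.2 j).2 i)) (univ.erase j) z,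
          (d.L (z.2 k).1, ((d.vis z.1, d.T z.1), d.B (z.2 k).1))))) ≤
          CH Q (fun z (i : Fin N) => d.T ((z.2 j).2 i))
            (fun z => (sel (fun j z (i : Fin N) => d.T ((z.2 j).2 i))
            (univ.erase j) z, (d.L (z.2 k).1, ((d.vis z.1, d.T z.1), d.B (z.2 k).1)))) :=
        CH_mono_cond hQ0 fun _ _ _ _ h => (Prod.ext_iff.mp h).2
      have e4 := (QQ_rs hkok j).CH_eq (fun z (i : Fin N) => d.T ((z.2 j).2 i))
        (fun x (i : Fin N) => d.T (x.2 i))
        (fun z x => by simp)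
        (fun z => (d.pt z.1, (sel (fun j z (i : Fin N) => d.T ((z.2 j).2 i)) (univ.erase j) z,
          (d.L (z.2 k).1, ((d.vis z.1, d.T z.1), d.B (z.2 k).1)))))
        (fun z x => by
          have e5 := sel_inv (fun j (z : d.Om × (Fin m → d.Om × (Fin N → d.Om)))
            (i : Fin N) => d.T ((z.2 j).2 i)) j
            (ω := z) (ω' := (z.1, Function.update z.2 j x)) fun i hi => by simp [hi]
          refine Prod.ext rfl (Prod.ext e5 ?_)
          simp [hj])
        (fun z => d.pt z.1) (fun _ _ => rfl)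
        (fun _ _ _ _ h => (Prod.ext_iff.mp h).1)
        (fun z z' _ _ h t => by
          have : kG d κ N z.1 = kG d κ N z'.1 := by
            funext x
            unfold kG
            rw [pp_dep d h]
          rw [this])
      change CH Q (fun z (i : Fin N) => d.T ((z.2 j).2 i)) _ =
        CH Q (fun z (i : Fin N) => d.T ((z.2 j).2 i)) _ at e4
      linarith
  refine (Finset.sum_le_sum fun j _ => h3 j).trans ?_
  rw [Finset.sum_const, Finset.card_univ, Fintype.card_fin, nsmul_eq_mul]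

/-- **The general scheme.** -/
theorem schG (f : Fin c → Fin m × Fin N) {ι : ℝ} (hι : 0 ≤ ι)
    (h1 : Pool.KVA.MI d.P d.T d.L d.B ≤ ι * d.X) (h7 : d.H7 ι) :
    Sch d (QG d κ m N) Prod.fst (fun k v => (v.2 (f k).1).1)
      (fun k v => (v.2 (f k).1).2 (f k).2) ((m * (N + 1) + 1) * ι) := by
  have hkok := kokG d hok hκ (m := m) (N := N)
  have hQ0 : ∀ z, 0 ≤ QG d κ m N z := QQ_nonneg hkok
  have main : ∀ k : Fin c, Pool.KVA.MI (QG d κ m N)
        (fun z => d.L (z.2 (f k).1).1)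
        (xr d Prod.fst (fun k v => (v.2 (f k).1).2 (f k).2)) (fun z => d.B (z.2 (f k).1).1) ≤
          (m * (N + 1) + 1) * ι * d.X ∧
      Pool.KVA.MI (QG d κ m N) (fun z => d.N z.1)
        (fun z => d.B (z.2 (f k).1).1) (xr d Prod.fst (fun k v => (v.2 (f k).1).2 (f k).2)) ≤
        (m * (N + 1) + 1) * ι * d.X := by
    intro k
    have a1 : Pool.KVA.MI (QG d κ m N) (fun z => d.L (z.2 (f k).1).1)
        (fun z => (d.vis z.1, d.T z.1)) (fun z => d.B (z.2 (f k).1).1) ≤ ι * d.X := by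
      have e1 := mi_mono hQ0 (fun z => d.L (z.2 (f k).1).1) (fun z => d.T (z.2 (f k).1).1)
        (fun z => (d.vis z.1, d.T z.1)) (fun z => d.B (z.2 (f k).1).1)
        (fun z z' hz hz' h => by
          have e := Prod.ext_iff.mp h
          obtain ⟨-, a2, a3, -⟩ := G_pos d hok hκ hz (f k).1
          obtain ⟨-, b2, b3, -⟩ := G_pos d hok hκ hz' (f k).1
          have a4 := Prod.ext_iff.mp a3
          have b4 := Prod.ext_iff.mp b3
          have a5 : d.vis (z.2 (f k).1).1 = d.vis z.1 := a4.1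
          have b5 : d.vis (z'.2 (f k).1).1 = d.vis z'.1 := b4.1
          have a6 : d.T (z.2 (f k).1).1 = d.T z.1 := (Prod.ext_iff.mp a4.2).2
          have b6 : d.T (z'.2 (f k).1).1 = d.T z'.1 := (Prod.ext_iff.mp b4.2).2
          change (d.vis z.1, d.T z.1) = (d.vis z'.1, d.T z'.1)
          rw [← a5, ← b5, ← a6, ← b6]
          exact Prod.ext (hok.hv _ _ a2 b2 (Prod.ext e.2 e.1)) e.1)
      have e2 := Marg.MI (G_fst d hok hκ (N := N) (f k).1) d.L d.T d.B
      have e3 := mi_comm hok.law.nonneg d.L d.T d.B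
      change Pool.KVA.MI d.P d.L d.T d.B = Pool.KVA.MI d.P d.T d.L d.B at e3
      change Pool.KVA.MI (QG d κ m N) (fun z => d.L (z.2 (f k).1).1)
        (fun z => (d.vis z.1, d.T z.1)) (fun z => d.B (z.2 (f k).1).1) ≤
        Pool.KVA.MI (QG d κ m N) (fun z => d.L (z.2 (f k).1).1)
        (fun z => d.T (z.2 (f k).1).1) (fun z => d.B (z.2 (f k).1).1) at e1
      linarith
    have a2 := G_mn d hok hκ (N := N) (f k).1 h7
    have a3 := G_det d hok hκ (N := N) (f k).1
    have a4 := G_fam d hok hκ (N := N) (f k).1 hι h1 h7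
    have a5 := mi_mono hQ0 (fun z => d.L (z.2 (f k).1).1)
      (fun z (j : Fin m) (i : Fin N) => d.T ((z.2 j).2 i))
      (fun z (k : Fin c) => d.T ((z.2 (f k).1).2 (f k).2))
      (fun z => ((d.vis z.1, d.T z.1), d.B (z.2 (f k).1).1))
      (fun z z' _ _ h => by
        have e : (fun (j : Fin m) (i : Fin N) => d.T ((z.2 j).2 i)) =
          fun (j : Fin m) (i : Fin N) => d.T ((z'.2 j).2 i) := (Prod.ext_iff.mp h).1
        funext k'
        exact congrFun (congrFun e (f k').1) (f k').2)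
    obtain ⟨b1, b2⟩ := core hQ0 (fun z => d.L (z.2 (f k).1).1) (fun z => d.B (z.2 (f k).1).1)
      (fun z => d.N z.1) (fun z => (d.vis z.1, d.T z.1))
      (fun z (k : Fin c) => d.T ((z.2 (f k).1).2 (f k).2)) a1 a2 a3 (a5.trans a4)
    have b3 : ι * d.X + m * ((N + 1) * (ι * d.X)) = (m * (N + 1) + 1) * ι * d.X := by ring
    rw [b3] at b1 b2
    exact ⟨b1, b2⟩
  refine ⟨QQ_law hkok, ?_, ?_, ?_, ?_, ?_, fun k => (main k).1, fun k => (main k).2⟩
  · intro ω
    exact (QQ_fst hkok) ω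
  · intro k ω
    exact (G_fst d hok hκ (N := N) (f k).1) ω
  · intro k ω
    exact ((G_comp d hok hκ (f k).1 (f k).2).comp
      (K_snd d (K := fun _ : Fin c => κ) (fun _ => hκ) k)) ω
  · intro v hv k
    exact (G_pos d hok hκ hv (f k).1).2.2.1
  · intro v hv k
    exact ((G_pos d hok hκ hv (f k).1).2.2.2 (f k).2).2

end G

end Pool.OCV.SC
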